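import Pool.Agent.H428.W.Main
import Pool.Graph.R_seed8.Y713.SE.Pull
import Pool.Graph.R_pool_sql_team_seeded_2aa45f1a.Q308.TC.Span
import Pool.Graph.R_pool_sql_team_seeded_2aa45f1a.Q308.TW.Sel

/-!
# The Selmer group conjecture for 100 percent of the pencils and of the twists over every finitely
# generated field, without roots of unity and without rational branch points, and for all their forms

Let `ℓ` be a prime, `k` a finitely generated field of characteristic zero, `N` prime to `ℓ`, and let
`b i`, `i` in a finite set `κ`, be any polynomials over `k` which span the polynomials of degree at most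
`N` (for example the `t ^ i`, or, for a number field `k`, the `ω_j t ^ i` for a basis `ω` of its ring of
integers). A property holds for 100 percent of the integer combinations `g = ∑ v i • b i` if it holds for
a proportion of the `v` with `|v i| ≤ B` which tends to one as `B` tends to infinity.

**Pencils.** Let `h` be ANY separable polynomial over `k` of degree at least two, `ℓ` not dividing
`deg h + 1`. There is a constant `C ≠ 0` such that for 100 percent of the `g` the following holds for the
Jacobian `J` of the curve `y ^ ℓ = h(x) (x - g(t))` over `k(t)`: the group of the classes of `ℓ`-power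
order in `H ^ 1 (k(t), J)` which are zero over the completions at all closed points of the affine line is
killed by `C`, and its `ℓ`-adic Tate module is zero: the Selmer group conjecture holds for `J` and `ℓ`
(`PencilsOverEveryField`).

**Twists.** Let `F(x, t)` be ANY polynomial over `k[t]`, separable over `k(t)`, of degree prime to `ℓ` in
`x`, all of whose roots are rational functions of `t` with coefficients in a finite Galois extension of
`k`; for example ANY separable polynomial `h(x)` over `k` of degree prime to `ℓ`. The same holds for 100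
percent of the twists `y ^ ℓ = D(t) F(x, t)`, `D = ∑ v i • b i`, for all large `N` prime to `ℓ`
(`TwistsOverEveryField`). So for example the Selmer group conjecture for `2` holds for 100 percent of the
quadratic twists over `k(t)` of every hyperelliptic curve `y ^ 2 = h(x)` of odd degree over `k`.

These theorems were known (`AlmostAllPencils`, `AlmostAllTwists` in the library) if `k` contains the
roots of unity of order `ℓ` and all the roots of `h`, and all the roots of `F` are in `k(t)`, with `C = 1`.
For example for `k = ℚ` they were known for `ℓ = 2` and split `h`, `F` only.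

**Forms.** Let `k` contain the roots of unity of order `ℓ` and the roots of `h`, `F`. For 100 percent of
the `g` and `D` the conjecture holds, with the factor `n [k(t) : M]` in the place of `C`, for ALL the
abelian varieties `A` over ALL the subfields `M` of `k(t)`, such that `k(t)` is a finite Galois extension of
`M` with integral closure `k[t]` of a Dedekind domain `S` in `M`, for which there are homomorphisms
`A → B → A` over `k(t)` with composite `n ≠ 0`, where `B` is a product of Jacobians `J` as above, with the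
same `g` (or `D`) and finitely many `h` (or `F`) (`HoldsForForms`, `Pencils`, `Twists`). Here `M` may be
`k₀(t)` or `k₀(s)`, where `s` is a polynomial in `t`, for example `s = t ^ m`; the local conditions are
imposed at the maximal ideals of `S` only. For pencils there is an explicit criterion, over all fields
`k` of characteristic different from `ℓ`, also finite fields: `ℓ` does not divide `deg g`, and the
`g - c` are irreducible over `k` for all the roots `c` of the `h` (`Criterion`).

Method: the theorem over `k(t)` is transferred to `M` by restriction and corestriction; the maps of the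
completions of `M` into those of `k(t)` show that the restriction of a locally trivial class is locally
trivial. This only gives a bound for the exponent of the `ℓ`-primary part, but the Tate module is zero
then, and this is the question.

The Jacobian of `y ^ ℓ = f(x)` (`f` separable of degree prime to `ℓ`) is given by the Picard groups of
the affine curve over the separably closed extensions of the ground field.
-/

set_option autoImplicit false
set_option linter.all false

open Polynomial IsDedekindDomain Filter Topology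

namespace Pool.Agent.Results.MP_1bdb59_nt.AlmostAllForms

open Pool.Agent.H428.V.B (GroupFunctor IsFactor jacobians KillsSha ShaTate)

section defs

variable {k : Type} [Field k] {κ : Type} [Fintype κ]

/-- The polynomials `b i` have degree at most `N` and span the polynomials of degree at most `N`. -/
def Spans (N : ℕ) (b : κ → k[X]) : Prop :=
  (∀ i, (b i).natDegree ≤ N) ∧ ∀ j : Fin (N + 1), ∃ c : κ → k, ∑ i, C (c i) * b i = X ^ (j : ℕ)

/-- The integer combination of the `b i` with the coefficients `v i`. -/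
noncomputable def comb (b : κ → k[X]) (v : κ → ℤ) : k[X] := ∑ i, C ((v i : ℤ) : k) * b i

/-- The integer vectors with coordinates of absolute value at most `B`. -/
def Box (κ : Type) (B : ℕ) : Set (κ → ℤ) := {v | ∀ i, |v i| ≤ B}

/-- The property `S` holds for a proportion of the vectors in the boxes which tends to one. -/
def AlmostAll (S : Set (κ → ℤ)) : Prop :=
  Tendsto (fun B : ℕ => ((Box κ B ∩ S).ncard : ℝ) / (Box κ B).ncard) atTop (𝓝 1)

/-- `k` is a finitely generated field of characteristic zero. -/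
def IsFG (k : Type) [Field k] : Prop :=
  CharZero k ∧ ∃ s : Finset k, Subfield.closure (s : Set k) = ⊤

/-- The polynomial `h(x) (x - g(t))` over `k(t)`. -/
noncomputable def pencil (h g : k[X]) : (RatFunc k)[X] :=
  h.map (algebraMap k (RatFunc k)) * (X - C (algebraMap k[X] (RatFunc k) g))

/-- The polynomial `D(t) F(x)` over `k(t)`. -/
noncomputable def twist (D : k[X]) (F : (RatFunc k)[X]) : (RatFunc k)[X] :=
  C (algebraMap k[X] (RatFunc k) D) * F

/-- Let `f i` be polynomials over `k(t)`, and `J i` the Jacobian of `y ^ ℓ = f i (x)`. For all subfields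
`M` of `k(t)` (with the Dedekind domain `S`) such that `k(t)` is a finite Galois extension of `M`, and all
`A` over `M` with homomorphisms `A → B → A` over `k(t)` with composite `n ≠ 0`, where `B` is a product of
Jacobians `J i`: the `ℓ`-primary part of the group of the classes in `H ^ 1 (M, A)` which are zero over
the completions of `M` at all the maximal ideals of `S` is killed by `n [k(t) : M]`, and the `ℓ`-adic Tate
module of this group is zero. -/
def HoldsForForms (ℓ : ℕ) {I : Type} (f : I → (RatFunc k)[X]) : Prop :=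
  ∀ (M S : Type) [Field M] [CommRing S] [IsDedekindDomain S] [Algebra S M] [IsFractionRing S M]
    [Algebra M (RatFunc k)] [FiniteDimensional M (RatFunc k)] [IsGalois M (RatFunc k)]
    (ι : S →+* k[X]), ι.IsIntegral →
    (∀ s, algebraMap M (RatFunc k) (algebraMap S M s) = algebraMap k[X] (RatFunc k) (ι s)) →
    ∀ (J : Type) (i : J → I) (A : GroupFunctor M) (n : ℕ), n ≠ 0 →
    IsFactor A (jacobians (fun _ => ℓ) fun j => f (i j)) n →
      KillsSha A S ℓ (n * Module.finrank M (RatFunc k)) ∧ ShaTate A S ℓ

/-- The Jacobian `J` of `y ^ ℓ = f(x)` over `k(t)`: the `ℓ`-primary part of the group of the classes in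
`H ^ 1 (k(t), J)` which are zero over the completions of `k(t)` at all the maximal ideals of `k[t]` is
killed by `N`, and the `ℓ`-adic Tate module of this group is zero. -/
def HoldsUpTo (ℓ N : ℕ) (f : (RatFunc k)[X]) : Prop :=
  KillsSha (jacobians (fun _ : Unit => ℓ) fun _ => f) k[X] ℓ N ∧
    ShaTate (jacobians (fun _ : Unit => ℓ) fun _ => f) k[X] ℓ

/-- `h` is separable of degree at least two, and `ℓ` does not divide `deg h + 1`. -/
def Admissible (ℓ : ℕ) (h : k[X]) : Prop := h.Separable ∧ 2 ≤ h.natDegree ∧ ¬ ℓ ∣ h.natDegree + 1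

/-- The polynomial `F(x, t)` over `k[t]` as a polynomial over `k'(t)`, for an extension `k'` of `k`. -/
noncomputable def extend (k' : Type) [Field k'] [Algebra k k'] (F : k[X][X]) : (RatFunc k')[X] :=
  F.map ((algebraMap k'[X] (RatFunc k')).comp (mapRingHom (algebraMap k k')))

end defs

/-- The criterion, over any field `k`. -/
def Criterion : Prop :=
  ∀ (ℓ : ℕ), ℓ.Prime → ∀ (k : Type) [Field k], (ℓ : k) ≠ 0 → ∀ ζ : k, IsPrimitiveRoot ζ ℓ →
    ∀ (I : Type) (h : I → k[X]) (g : k[X]), (∀ i, (h i).Splits ∧ Admissible ℓ (h i)) →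
      ¬ ℓ ∣ g.natDegree → (∀ i c, (h i).IsRoot c → Irreducible (g - C c)) →
        HoldsForForms ℓ fun i => pencil (h i) g

/-- 100 percent of the pencils, and all their forms. -/
def Pencils : Prop :=
  ∀ (ℓ : ℕ), ℓ.Prime → ∀ (k : Type) [Field k], IsFG k → ∀ ζ : k, IsPrimitiveRoot ζ ℓ →
    ∀ (I : Type) [Finite I] (h : I → k[X]), (∀ i, (h i).Splits ∧ Admissible ℓ (h i)) →
      ∀ (N : ℕ), ¬ ℓ ∣ N → ∀ (κ : Type) [Fintype κ] (b : κ → k[X]), Spans N b →
        AlmostAll {v | (comb b v).natDegree = N ∧ HoldsForForms ℓ fun i => pencil (h i) (comb b v)}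

/-- 100 percent of the twists, and all their forms. -/
def Twists : Prop :=
  ∀ (ℓ : ℕ), ℓ.Prime → ∀ (k : Type) [Field k], IsFG k → ∀ ζ : k, IsPrimitiveRoot ζ ℓ →
    ∀ (I : Type) [Finite I] (F : I → (RatFunc k)[X]),
      (∀ i, (F i).Splits ∧ (F i).Separable ∧ ¬ ℓ ∣ (F i).natDegree) →
      ∃ N₀ : ℕ, ∀ N : ℕ, N₀ ≤ N → ¬ ℓ ∣ N → ∀ (κ : Type) [Fintype κ] (b : κ → k[X]), Spans N b →
        AlmostAll {v | (comb b v).natDegree = N ∧ Irreducible (comb b v) ∧
          HoldsForForms ℓ fun i => twist (comb b v) (F i)}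

/-- 100 percent of the pencils over every finitely generated field of characteristic zero. -/
def PencilsOverEveryField : Prop :=
  ∀ (ℓ : ℕ), ℓ.Prime → ∀ (k : Type) [Field k], IsFG k → ∀ h : k[X], Admissible ℓ h →
    ∃ m : ℕ, m ≠ 0 ∧ ∀ (N : ℕ), ¬ ℓ ∣ N → ∀ (κ : Type) [Fintype κ] (b : κ → k[X]), Spans N b →
      AlmostAll {v | (comb b v).natDegree = N ∧ HoldsUpTo ℓ m (pencil h (comb b v))}

/-- 100 percent of the twists over every finitely generated field of characteristic zero. -/
def TwistsOverEveryField : Prop :=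
  ∀ (ℓ : ℕ), ℓ.Prime → ∀ (k : Type) [Field k], IsFG k → ∀ F : k[X][X],
    (extend k F).Separable → ¬ ℓ ∣ (extend k F).natDegree →
    (∃ (k' : Type) (_ : Field k') (_ : Algebra k k'), FiniteDimensional k k' ∧ IsGalois k k' ∧
      (∃ ζ : k', IsPrimitiveRoot ζ ℓ) ∧ (extend k' F).Splits) →
    ∃ m N₀ : ℕ, m ≠ 0 ∧ ∀ N : ℕ, N₀ ≤ N → ¬ ℓ ∣ N → ∀ (κ : Type) [Fintype κ] (b : κ → k[X]),
      Spans N b → AlmostAll {v | (comb b v).natDegree = N ∧ Irreducible (comb b v) ∧
        HoldsUpTo ℓ m (twist (comb b v) (extend k F))}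

section lemmas

variable {k : Type} [Field k] {κ : Type} [Fintype κ]

theorem pencil_eq (h g : k[X]) : pencil h g = Pool.Agent.Y713.SE.pencil (RatFunc k) h g := by
  unfold pencil Pool.Agent.Y713.SE.pencil
  congr 2

theorem almost_of {S : Set (κ → ℤ)} (h : Pool.Agent.Q126.TD.Full S) : AlmostAll S := by
  refine h.congr fun B => ?_
  have h5 : ((Box κ B).ncard : ℝ) = (2 * B + 1 : ℝ) ^ Fintype.card κ := by
    have : (Box κ B).ncard = (2 * B + 1) ^ Fintype.card κ :=
      Pool.Agent.Q126.TD.box_ncard (κ := κ) B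
    rw [this]
    push_cast
    rfl
  rw [h5]
  rfl

theorem forms_of {ℓ : ℕ} (hℓ : ℓ.Prime) {I : Type} {f : I → (RatFunc k)[X]}
    (h : ∀ i, Pool.Agent.Y713.Jac.ShaPrimaryTrivial ℓ (f i) k[X]) : HoldsForForms ℓ f := by
  intro M S _ _ _ _ _ _ _ _ ι hι1 hι2 J i A n hn hA
  have h1 := Pool.Agent.H428.W.transfer' (p := ℓ) (A := k[X]) ι hι2 hι1
    (fun j => Pool.Agent.H428.W.shaTriv_of (h (i j))) A n hA
  exact ⟨h1, Pool.Agent.H428.V.B.tate_of_kills hℓ
    (mul_ne_zero hn Module.finrank_pos.ne') h1⟩

/-- The irreducibility for 100 percent. -/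
theorem full_irr (hk : IsFG k) {h : k[X]} (h0 : h ≠ 0) {N : ℕ} (hN0 : 0 < N) {b : κ → k[X]}
    (hb : Spans N b) : Pool.Agent.Q126.TD.Full {v : κ → ℤ | (comb b v).natDegree = N ∧
      ∀ c, h.IsRoot c → Irreducible (comb b v - C c)} := by
  classical
  haveI := hk.1
  have h1 : ∀ c ∈ h.roots.toFinset, Pool.Agent.Q126.TD.Full {v : κ → ℤ |
      Irreducible ((X - C c).comp (Pool.Agent.Q308.TC.comb b v)) ∧
      (Pool.Agent.Q308.TC.comb b v).natDegree = N} := by
    intro c _
    exact Pool.Agent.Q308.TC.span_full hk.2 hN0 hb (irreducible_X_sub_C c)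
  have h2 := Pool.Agent.Q308.TC.full_biInter h.roots.toFinset _ h1
  have h3 := Pool.Agent.Q308.TC.span_full hk.2 hN0 hb (irreducible_X (R := k))
  refine (h2.inter h3).mono ?_
  rintro v ⟨hv, -, hd⟩
  refine ⟨hd, fun c hc => ?_⟩
  have h4 := (hv c (Multiset.mem_toFinset.2 ((mem_roots h0).2 hc))).1
  rw [sub_comp, X_comp, C_comp] at h4
  exact h4

theorem full_all {I : Type} [Finite I] {S : I → Set (κ → ℤ)}
    (h : ∀ i, Pool.Agent.Q126.TD.Full (S i)) : Pool.Agent.Q126.TD.Full {v | ∀ i, v ∈ S i} := by
  classical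
  let _ := Fintype.ofFinite I
  refine (Pool.Agent.Q308.TC.full_biInter Finset.univ S fun i _ => h i).mono ?_
  intro v hv i
  exact hv i (Finset.mem_univ i)

theorem pos_of {ℓ N : ℕ} (hN : ¬ ℓ ∣ N) : 0 < N := Nat.pos_of_ne_zero (by rintro rfl; exact hN (dvd_zero ℓ))

/-- The integer combinations over an extension. -/
theorem comb_map (k' : Type) [Field k'] [Algebra k k'] (b : κ → k[X]) (v : κ → ℤ) :
    (comb b v).map (algebraMap k k') = comb (fun i => (b i).map (algebraMap k k')) v := by
  unfold comb
  rw [Polynomial.map_sum]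
  refine Finset.sum_congr rfl fun i _ => ?_
  rw [Polynomial.map_mul, map_C, map_intCast]

theorem spans_map (k' : Type) [Field k'] [Algebra k k'] {N : ℕ} {b : κ → k[X]} (hb : Spans N b) :
    Spans N fun i => (b i).map (algebraMap k k') := by
  refine ⟨fun i => natDegree_map_le.trans (hb.1 i), fun j => ?_⟩
  obtain ⟨c, hc⟩ := hb.2 j
  refine ⟨fun i => algebraMap k k' (c i), ?_⟩
  have h1 := congrArg (Polynomial.map (algebraMap k k')) hc
  rw [Polynomial.map_sum, Polynomial.map_pow, map_X] at h1
  rw [← h1]
  refine Finset.sum_congr rfl fun i _ => ?_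
  rw [Polynomial.map_mul, map_C]

theorem fg_up (hk : IsFG k) (k' : Type) [Field k'] [Algebra k k'] [FiniteDimensional k k'] :
    IsFG k' := by
  haveI := hk.1
  exact ⟨charZero_of_injective_algebraMap (algebraMap k k').injective,
    Pool.Agent.H428.W.fg_of_finite k k' hk.2⟩

end lemmas

theorem pencil_prim {ℓ : ℕ} (hℓ : ℓ.Prime) {k : Type} [Field k] (hk : (ℓ : k) ≠ 0) {ζ : k}
    (hζ : IsPrimitiveRoot ζ ℓ) {h g : k[X]} (hs : h.Splits) (ha : Admissible ℓ h)
    (hg : ¬ ℓ ∣ g.natDegree) (hirr : ∀ c, h.IsRoot c → Irreducible (g - C c)) :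
    Pool.Agent.Y713.Jac.ShaPrimaryTrivial ℓ (pencil h g) k[X] := by
  rw [pencil_eq]
  exact Pool.Agent.Y713.SE.pencil_primary (RatFunc k) hℓ hk hζ hs ha.1 ha.2.1 ha.2.2 hg hirr

theorem criterion : Criterion := by
  intro ℓ hℓ k _ hk ζ hζ I h g hh hg hirr
  exact forms_of hℓ fun i => pencil_prim hℓ hk hζ (hh i).1 (hh i).2 hg (hirr i)

theorem char_ne {k : Type} [Field k] (hk : IsFG k) {ℓ : ℕ} (hℓ : ℓ.Prime) : (ℓ : k) ≠ 0 := by
  haveI := hk.1
  exact_mod_cast hℓ.ne_zero

theorem pencils : Pencils := by
  intro ℓ hℓ k _ hk ζ hζ I _ h hh N hN κ _ b hb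
  apply almost_of
  have h1 := full_all fun i => full_irr hk (hh i).2.1.ne_zero (pos_of hN) hb
  have h2 := full_irr hk (h := (X : k[X])) X_ne_zero (pos_of hN) hb
  refine (h1.inter h2).mono ?_
  rintro v ⟨hv, hd, -⟩
  exact ⟨hd, criterion ℓ hℓ k (char_ne hk hℓ) ζ hζ I h _ hh (by rw [hd]; exact hN)
    fun i => (hv i).2⟩

theorem twists : Twists := by
  intro ℓ hℓ k _ hk ζ hζ I _ F hF
  haveI := hk.1
  choose N₀ h0 using fun i => Pool.Agent.Q308.TW.twist_almost (RatFunc k) hk.2 hℓ hζ (hF i).1
    (hF i).2.1 (hF i).2.2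
  let _ := Fintype.ofFinite I
  refine ⟨∑ i, N₀ i + 0, fun N hN hℓN κ _ b hb => ?_⟩
  apply almost_of
  have h1 := full_all fun i => h0 i N ((Finset.single_le_sum (f := N₀) (fun _ _ => Nat.zero_le _)
    (Finset.mem_univ i)).trans hN) hℓN κ b hb
  have h2 := Pool.Agent.Q308.TC.span_full hk.2 (pos_of hℓN) hb (irreducible_X (R := k))
  refine (h1.inter h2).mono ?_
  rintro v ⟨hv, hi, hd⟩
  rw [X_comp] at hi
  exact ⟨hd, hi, forms_of hℓ fun i => (hv i).2⟩

/-- **The result over every field.** -/
theorem up_of {k : Type} [Field k] {ℓ : ℕ} (hℓ : ℓ.Prime) (k' : Type) [Field k'] [Algebra k k']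
    [FiniteDimensional k k'] [IsGalois k k'] : ∃ (m : ℕ) (φ : RatFunc k →+* RatFunc k'), m ≠ 0 ∧
      (∀ p : k[X], φ (algebraMap k[X] (RatFunc k) p) =
        algebraMap k'[X] (RatFunc k') (p.map (algebraMap k k'))) ∧
      ∀ f : (RatFunc k)[X], Pool.Agent.Y713.Jac.ShaPrimaryTrivial ℓ (f.map φ) k'[X] →
        HoldsUpTo ℓ m f := by
  obtain ⟨m, φ, h1, h2, h3⟩ := Pool.Agent.H428.W.over_base k k' (RatFunc k) (RatFunc k')
  refine ⟨m, φ, h1, h2, fun f hf => ?_⟩
  have h4 := h3 ℓ f hf
  exact ⟨h4, Pool.Agent.H428.V.B.tate_of_kills hℓ h1 h4⟩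

theorem pencilsOverEveryField : PencilsOverEveryField := by
  intro ℓ hℓ k _ hk h hh
  haveI := hk.1
  let k' : Type := (h * cyclotomic ℓ k).SplittingField
  have hcyc : cyclotomic ℓ k ≠ 0 := cyclotomic_ne_zero ℓ k
  have hsp : ((h * cyclotomic ℓ k).map (algebraMap k k')).Splits := SplittingField.splits _
  have hne : (h * cyclotomic ℓ k).map (algebraMap k k') ≠ 0 :=
    (Polynomial.map_ne_zero_iff (algebraMap k k').injective).2 (mul_ne_zero hh.1.ne_zero hcyc)
  rw [Polynomial.map_mul] at hsp hne
  have hs1 : (h.map (algebraMap k k')).Splits := hsp.of_dvd hne (dvd_mul_right _ _)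
  have hs2 : ((cyclotomic ℓ k).map (algebraMap k k')).Splits := hsp.of_dvd hne (dvd_mul_left _ _)
  haveI : NeZero ((ℓ : ℕ) : k') := ⟨char_ne (fg_up hk k') hℓ⟩
  obtain ⟨ζ, hζ⟩ : ∃ ζ : k', IsPrimitiveRoot ζ ℓ := by
    rw [map_cyclotomic] at hs2
    have hdeg : (cyclotomic ℓ k').degree ≠ 0 := by
      rw [degree_cyclotomic]
      exact_mod_cast (Nat.totient_pos.2 hℓ.pos).ne'
    obtain ⟨ζ, hζ⟩ := hs2.exists_eval_eq_zero hdeg
    exact ⟨ζ, isRoot_cyclotomic_iff.1 hζ⟩
  haveI : Normal k k' := Normal.of_isSplittingField (h * cyclotomic ℓ k)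
  haveI : IsGalois k k' := { }
  obtain ⟨m, φ, hm, hφ, hup⟩ := up_of (k := k) hℓ k'
  refine ⟨m, hm, fun N hN κ _ b hb => ?_⟩
  apply almost_of
  have hh' : Admissible ℓ (h.map (algebraMap k k')) :=
    ⟨hh.1.map, by rw [natDegree_map]; exact hh.2.1, by rw [natDegree_map]; exact hh.2.2⟩
  refine (full_irr (fg_up hk k') hh'.1.ne_zero (pos_of hN) (spans_map k' hb)).mono ?_
  rintro v ⟨hd, hirr⟩
  rw [← comb_map] at hd hirr
  rw [natDegree_map] at hd
  refine ⟨hd, hup _ ?_⟩
  have h1 : (pencil h (comb b v)).map φ =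
      pencil (h.map (algebraMap k k')) ((comb b v).map (algebraMap k k')) := by
    have h2 : φ.comp (algebraMap k (RatFunc k)) =
        (algebraMap k' (RatFunc k')).comp (algebraMap k k') := by
      ext x
      have h3 := hφ (C x)
      rw [map_C] at h3
      exact h3
    unfold pencil
    rw [Polynomial.map_mul, Polynomial.map_map, Polynomial.map_sub, map_X, map_C, hφ, h2,
      Polynomial.map_map]
  rw [h1]
  exact pencil_prim hℓ (char_ne (fg_up hk k') hℓ) hζ hs1 hh' (by rw [natDegree_map, hd]; exact hN)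
    hirr

theorem extend_map {k k' : Type} [Field k] [Field k'] [Algebra k k'] {φ : RatFunc k →+* RatFunc k'}
    (hφ : ∀ p : k[X], φ (algebraMap k[X] (RatFunc k) p) =
        algebraMap k'[X] (RatFunc k') (p.map (algebraMap k k'))) (F : k[X][X]) :
    (extend k F).map φ = extend k' F := by
  unfold extend
  rw [Polynomial.map_map]
  congr 1
  apply RingHom.ext
  intro p
  show φ (algebraMap k[X] (RatFunc k) (p.map (algebraMap k k))) = _
  rw [hφ, Polynomial.map_map]
  rfl

theorem twistsOverEveryField : TwistsOverEveryField := by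
  rintro ℓ hℓ k _ hk F hF1 hF2 ⟨k', _, _, _, _, ⟨ζ, hζ⟩, hs⟩
  obtain ⟨m, φ, hm, hφ, hup⟩ := up_of (k := k) hℓ k'
  have hk' := fg_up hk k'
  haveI := hk'.1
  have hsep : (extend k' F).Separable := by
    rw [← extend_map hφ]
    exact hF1.map
  have hdeg : ¬ ℓ ∣ (extend k' F).natDegree := by
    rw [← extend_map hφ, natDegree_map]
    exact hF2
  obtain ⟨N₀, h0⟩ := Pool.Agent.Q308.TW.twist_almost (RatFunc k') hk'.2 hℓ hζ hs hsep hdeg
  refine ⟨m, N₀, hm, fun N hN hℓN κ _ b hb => ?_⟩
  apply almost_of
  haveI := hk.1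
  have h2 := Pool.Agent.Q308.TC.span_full hk.2 (pos_of hℓN) hb (irreducible_X (R := k))
  refine ((h0 N hN hℓN κ _ (spans_map k' hb)).inter h2).mono ?_
  rintro v ⟨hv, hi, hd⟩
  rw [X_comp] at hi
  refine ⟨hd, hi, hup _ ?_⟩
  have h1 : (twist (comb b v) (extend k F)).map φ =
      Polynomial.C (algebraMap k'[X] (RatFunc k')
        (Pool.Agent.Q308.TC.comb (fun i => (b i).map (algebraMap k k')) v)) * extend k' F := by
    unfold twist
    rw [Polynomial.map_mul, map_C, hφ, extend_map hφ, comb_map]
    rfl
  rw [h1]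
  exact hv.2

/-- **The Selmer group conjecture for 100 percent of the pencils and twists, and for all their forms.** -/
theorem result : Criterion ∧ Pencils ∧ Twists ∧ PencilsOverEveryField ∧ TwistsOverEveryField :=
  ⟨criterion, pencils, twists, pencilsOverEveryField, twistsOverEveryField⟩

end Pool.Agent.Results.MP_1bdb59_nt.AlmostAllForms
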