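import Pool.Agent.H467.PU.Find

/-!
# The flat Selmer groups of all quadratic twists of elliptic curves over global function fields of
characteristic two

Let `K` be any global function field of characteristic two (of any genus, with any field of constants),
and let `E_{a, b} : y ^ 2 + x y = x ^ 3 + a x ^ 2 + b`, `b ≠ 0`. Every elliptic curve over `K` with `j ≠ 0`
has this form, with `b = 1 / j`, and the curves `E_{a₀ + a, b}`, `a ∈ K`, are the twists of `E_{a₀, b}` by
the quadratic extensions `z ^ 2 + z = a` of `K`, ordered by the norm of their conductor.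

We prove results on the Selmer group conjecture at the prime `l = p = 2`, where flat cohomology is needed.
The Selmer group `Sel (E, 2 ^ n)` in the flat cohomology group `H ^ 1 (K, E[2 ^ n])` is defined with the complex
`2 ^ n : E → E` of smooth groups, so that its elements are represented by pairs `(c, R)` of a continuous
cocycle `c` of the absolute Galois group with values in `E (Sep K)` and a point `R` in `E (Sep K)` such that
`2 ^ n c` is the coboundary of `R`.

Theorem. Let `a₀, b ∈ K`, `b ≠ 0`.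

(1) Let the Selmer group of the Verschiebung `E ^ (4) → E ^ (2)`, `E = E_{a, b}`, have `2 ^ (s + 1)` elements, and let
`s = r + u`, `u` the excess of the local images (see `excess`). Then `Sel (E_{a, b ^ 2}, 2)` has at most
`2 ^ (r + s + 1)` elements. (The curves `E_{a, b ^ 2}` are the curves for which `j` is a square, and are, up to
isomorphism, the Frobenius twists of the curves `E_{a, b}`. Every elliptic curve with `j ≠ 0` is isogenous to
such a curve.)

(2) There is a constant `C` such that, for every `n`, `Sel (E, 2)` has at most `2 ^ (n + 1)` elements for at least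
`1 - C 2 ^ (-[n ^ 2 / 4])` times all quadratic twists `E` of `E_{a₀, b ^ 2}`.

(3) In every family of the twists which satisfy a condition on their local classes at finitely many places,
and have the excess `u`, the proportion of the twists for which `Sel (E, 2)` has at most `2 ^ (n + 1)` elements is
asymptotically at least the sum of the numbers `prob s r`, `s = r + u`, `r + s ≤ n` (the law of Cohen and Lenstra and
Gerth for the coranks of random matrices).

(4) In every family of twists of `E_{a₀, b}` with excess zero which is given by a condition on the local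
classes at finitely many places, more than 28.8% of the twists `E` have the following properties: `E (K)` is
finite, the 2-primary part of `Ш (E)` is killed by two, `T_2 Ш (E) = 0`, and the natural map
`E (K) ⊗ ℤ_2 → Sel (E, ℤ_2)` is an isomorphism.

(5) The twists of excess `u` have a density `δ (u)` among all quadratic twists, `∑ δ (u) = 1`, `δ (0) > 0`. So the
proportion of all quadratic twists `E` of `E_{a₀, b ^ 2}` for which `Sel (E, 2)` has at most `2 ^ (n + 1)` elements
is asymptotically at least `∑ δ (u) probLE u n`, which tends to 1 for `n → ∞`, and the Selmer group conjecture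
and the other properties in (4) are true for the proportion `δ (0) prob 0 0 > 0` (at least) of all quadratic
twists of every elliptic curve over `K` with `j ≠ 0`. (By the known theorem of Artin, Tate, Milne, Schneider,
Kato and Trihan `Ш (E)` is finite for these twists, so that the conjecture is true for all primes `l`.)

The proof. We use the law of the Selmer group of the Verschiebung for all twists, see
`MP_ae0bd0_nt.CompleteSelmerLawOfAllTwists`. If `(c, R)` gives an element of `Sel (E, 2)`, then the class of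
`V (c)` is an element of the Selmer group of the Verschiebung. If it is trivial, then we can change `(c, R)`
by an equivalent pair such that `c = 0` up to the image of the points of order two, and the class of the
point `R` in `K^* / K^*2` is in the Selmer group of the Frobenius, which has at most `2 ^ r` elements.

Projects PU and DN: helper467, with parts by helpers 23, 106, 196, 218, 307, 322, 358, 372, 599, 627, 703,
719, 733, 784, 808, 887, 976 (DN: the densities) and 34, 75, 122, 124, 199, 213, 225, 277, 379, 399, 400,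
551, 588, 597, 618, 686, 720, 725, 727, 878, 898, 962, 974, 981, 984, 632; see
`departures/helper467.md`.
-/

set_option autoImplicit false
set_option linter.all false

namespace Pool.Agent.Results.MP_1bdb59_nt.FlatSelmerGroupsOfAllTwists

open Filter Pool.Agent.TH115.GD
open Pool.Agent.H467.GK (Vl Cm IsFF LTA)
open scoped Classical

/-! ### Places and quadratic extensions -/

/-- The places of `K`: the discrete valuations of `K` with value group `ℤ` (written
multiplicatively). -/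
def Place (K : Type) [Field K] : Type :=
  {v : Valuation K (WithZero (Multiplicative ℤ)) // Function.Surjective v}

/-- The elements `z ^ 2 + z` of `K`. -/
def wp (K : Type) [Field K] [CharP K 2] : AddSubgroup K where
  carrier := {x | ∃ z : K, x = z ^ 2 + z}
  add_mem' := (Pool.Agent.H467.PG.wp K).add_mem'
  zero_mem' := (Pool.Agent.H467.PG.wp K).zero_mem'
  neg_mem' := (Pool.Agent.H467.PG.wp K).neg_mem'

/-- The (separable) quadratic extensions `z ^ 2 + z = a` of `K`, including the trivial one: the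
elements of `K / {z ^ 2 + z}`. -/
abbrev Ext (K : Type) [Field K] [CharP K 2] : Type := K ⧸ wp K

/-- The extension `z ^ 2 + z = a`. -/
def ext {K : Type} [Field K] [CharP K 2] (a : K) : Ext K := QuotientAddGroup.mk a

/-- The smallest order of the pole of an element `a + z ^ 2 + z` at `v`. -/
noncomputable def poleOrder {K : Type} [Field K] (v : Place K) (a : K) : ℕ :=
  sInf {n : ℕ | ∃ z : K, v.1 (a + z ^ 2 + z) ≤ WithZero.exp (n : ℤ)}

/-- The norm of the conductor of the extension `z ^ 2 + z = a`: the product of the powers `q_v ^ (n + 1)` at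
the places with `n = poleOrder v a ≠ 0`, `q_v` the number of elements of the residue field. -/
noncomputable def condNorm {K : Type} [Field K] (a : K) : ℕ :=
  ∏ᶠ v : Place K, Nat.card (IsLocalRing.ResidueField v.1.valuationSubring) ^
    (if poleOrder v a = 0 then 0 else poleOrder v a + 1)

/-- The quadratic extensions with conductor of norm at most `X`. -/
def ExtLE (K : Type) [Field K] [CharP K 2] (X : ℕ) : Set (Ext K) :=
  {χ | ∃ a : K, ext a = χ ∧ condNorm a ≤ X}

/-! ### The curves and their Selmer groups -/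

/-- The curve `y ^ 2 + x y = x ^ 3 + a x ^ 2 + b`. -/
def curve {K : Type} [Field K] (a b : K) : WeierstrassCurve K := ⟨1, a, 0, 0, b⟩

/-- The image of the `L`-rational points of `E : y ^ 2 + x y = x ^ 3 + a x ^ 2 + b` under the homomorphism
`E (L) → L / {z ^ 2 + z} = H ^ 1 (L, ℤ / 2)`, which maps `(x, y)` to the class of `x + a`. This is the
connecting homomorphism of the Verschiebung `E ^ (2) → E`, the kernel of which has the elements `0` and
`(0, b)`. -/
def InImage {L : Type} [Field L] (a b α : L) : Prop :=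
  (∃ z : L, α = z ^ 2 + z) ∨
    ∃ x y z : L, y ^ 2 + x * y = x ^ 3 + a * x ^ 2 + b ∧ α + (x + a) = z ^ 2 + z

/-- The embedding of `K` in its completion at `v`. -/
noncomputable def toCompletion {K : Type} [Field K] (v : Place K) (x : K) : Cm v.1 :=
  algebraMap K (Cm v.1) x

/-- The Selmer group of the Verschiebung `E ^ (2) → E`, `E : y ^ 2 + x y = x ^ 3 + a x ^ 2 + b`. -/
def Selmer {K : Type} [Field K] [CharP K 2] (a b : K) : Set (Ext K) :=
  {χ | ∀ α : K, ext α = χ → ∀ v : Place K,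
    InImage (toCompletion v a) (toCompletion v b) (toCompletion v α)}

/-- The completions have characteristic two. -/
instance {K : Type} [Field K] [CharP K 2] (v : Place K) : CharP (Cm v.1) 2 :=
  charP_of_injective_algebraMap (algebraMap K (Cm v.1)).injective 2

/-- The image of `E (K_v)` in `K_v / {z ^ 2 + z}`, `E : y ^ 2 + x y = x ^ 3 + a x ^ 2 + b`. -/
def localImage {K : Type} [Field K] [CharP K 2] (v : Place K) (a b : K) : Set (Ext (Cm v.1)) :=
  {χ | ∀ α : Cm v.1, ext α = χ → InImage (toCompletion v a) (toCompletion v b) α}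

/-- The excess of `E : y ^ 2 + x y = x ^ 3 + a x ^ 2 + b`: the sum of the numbers `n_v - 1`, where the image
of `E ^ (2) (K_v)` has `2 ^ n_v` elements. -/
noncomputable def excess {K : Type} [Field K] [CharP K 2] (a b : K) : ℤ :=
  ∑ᶠ v : Place K, ((Nat.log 2 (localImage v (a ^ 2) (b ^ 2)).ncard : ℤ) - 1)

/-- `P` is a condition on the local classes of `χ` at finitely many places. -/
def LocalCondition {K : Type} [Field K] [CharP K 2] (P : Ext K → Prop) : Prop :=
  ∃ S : Finset (Place K), ∀ a a' : K,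
    (∀ v ∈ S, ∃ z : Cm v.1, toCompletion v (a + a') = z ^ 2 + z) → P (ext a) → P (ext a')

/-- The quadratic extensions `χ : z ^ 2 + z = a` with conductor of norm at most `X` which have the
property `P`, and such that the twist of `y ^ 2 + x y = x ^ 3 + a₀ x ^ 2 + b` by `χ` has the excess `u`. -/
def Family {K : Type} [Field K] [CharP K 2] (a₀ b : K) (P : Ext K → Prop) (u : ℤ) (X : ℕ) :
    Set (Ext K) :=
  {χ ∈ ExtLE K X | P χ ∧ ∀ a : K, ext a = χ → excess (a₀ + a) b = u}

/-- The extensions in `Family a₀ b P u X` for which the Selmer group of the Verschiebung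
`E ^ (4) → E ^ (2)` has `n` elements, where `E` is the twist of `y ^ 2 + x y = x ^ 3 + a₀ x ^ 2 + b`. -/
def SelmerFamily {K : Type} [Field K] [CharP K 2] (a₀ b : K) (P : Ext K → Prop) (u : ℤ) (n X : ℕ) :
    Set (Ext K) :=
  {χ ∈ Family a₀ b P u X | ∀ a : K, ext a = χ → (Selmer ((a₀ + a) ^ 2) (b ^ 2)).ncard = n}

/-- The limit, for `n → ∞`, of the probabilities that a random matrix over the field with two elements
with `n + r` rows and `n + s` columns has rank `n`. -/
noncomputable def prob (s r : ℕ) : ℝ :=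
  (1 / 2) ^ (s * r) * (∏' i : ℕ, (1 - (1 / 2 : ℝ) ^ (i + 1))) /
    ((∏ i ∈ Finset.range s, (1 - (1 / 2 : ℝ) ^ (i + 1))) *
      ∏ i ∈ Finset.range r, (1 - (1 / 2 : ℝ) ^ (i + 1)))

/-- The sum of the numbers `prob s r` with `s = r + u`, `r + s ≤ n`. -/
noncomputable def probLE (u : ℤ) (n : ℕ) : ℝ :=
  ∑ r ∈ (Finset.range (n + 1)).filter (fun r : ℕ => 0 ≤ r + u ∧ 2 * r + u ≤ n),
    prob (r + u).toNat r

/-! ### Flat cohomology and the Selmer group conjecture -/

section flat

variable {K : Type} [Field K]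

/-- A pair `(c, R)`: a function on the absolute Galois group of `K` with values in `E (Sep K)`, and a
point of `E (Sep K)`. -/
abbrev Pair (E : WeierstrassCurve K) : Type :=
  ((Sep K ≃ₐ[K] Sep K) → Pt E (Sep K)) × Pt E (Sep K)

/-- The flat cohomology group `H ^ 1 (K, E[m])`, `m = 2 ^ n`, is the first cohomology group of the absolute
Galois group of `K` with values in the complex `m : E (Sep K) → E (Sep K)` (the flat sheaf `E[m]` is
quasi-isomorphic to the complex `m : E → E`, and the flat and the Galois cohomology of the smooth group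
`E` are equal). Its elements are represented by the pairs `(c, R)` of a continuous 1-cocycle `c` with
values in `E (Sep K)` and a point `R` in `E (Sep K)` such that `m c` is the coboundary of `R`. The image
in `H ^ 1 (K, E)` is the class of `c`. The element is in `Sel (E, m)` if the class of `c` is trivial over
all completions of `K`. -/
def IsSelmer (E : WeierstrassCurve K) (n : ℕ) (p : Pair E) : Prop :=
  IsCoc E p.1 ∧ LTA E p.1 ∧ ∀ σ, 2 ^ n • p.1 σ = act E (rs K σ) p.2 - p.2

/-- The pairs give the same element of `H ^ 1 (K, E[m])`, `m = 2 ^ n`: their difference is `(∂ Q, m Q)`. -/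
def Same (E : WeierstrassCurve K) (n : ℕ) (p q : Pair E) : Prop :=
  ∃ Q : Pt E (Sep K), 2 ^ n • Q = p.2 - q.2 ∧ ∀ σ, p.1 σ - q.1 σ = act E (rs K σ) Q - Q

theorem Same.refl (E : WeierstrassCurve K) (n : ℕ) (p : Pair E) : Same E n p p :=
  ⟨0, by rw [smul_zero, sub_self], fun σ => by rw [map_zero, sub_self, sub_self]⟩

theorem Same.symm {E : WeierstrassCurve K} {n : ℕ} {p q : Pair E} (h : Same E n p q) :
    Same E n q p := by
  obtain ⟨Q, h1, h2⟩ := h
  refine ⟨-Q, by rw [smul_neg, h1, neg_sub], fun σ => ?_⟩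
  rw [map_neg, ← neg_sub (p.1 σ) (q.1 σ), h2 σ]
  abel

theorem Same.trans {E : WeierstrassCurve K} {n : ℕ} {p q r : Pair E} (h : Same E n p q)
    (h' : Same E n q r) : Same E n p r := by
  obtain ⟨Q, h1, h2⟩ := h
  obtain ⟨Q', h3, h4⟩ := h'
  refine ⟨Q + Q', by rw [smul_add, h1, h3]; abel, fun σ => ?_⟩
  have h5 : p.1 σ - r.1 σ = (p.1 σ - q.1 σ) + (q.1 σ - r.1 σ) := by abel
  rw [h5, h2 σ, h4 σ, map_add]
  abel

/-- The equivalence relation `Same` on the pairs which represent elements of `Sel (E, 2 ^ n)`. -/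
def selSetoid (E : WeierstrassCurve K) (n : ℕ) : Setoid {p : Pair E // IsSelmer E n p} where
  r p q := Same E n p.1 q.1
  iseqv := ⟨fun p => Same.refl E n p.1, fun h => h.symm, fun h h' => h.trans h'⟩

/-- The Selmer group `Sel (E, 2 ^ n)`, a subgroup of the flat cohomology group `H ^ 1 (K, E[2 ^ n])`. -/
def Sel (E : WeierstrassCurve K) (n : ℕ) : Type := Quotient (selSetoid E n)

/-- The Selmer group `Sel (E, 2)` is finite, and has at most `2 ^ (n + 1)` elements. -/
def SelLE (E : WeierstrassCurve K) (n : ℕ) : Prop :=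
  Finite (Sel E 1) ∧ Nat.card (Sel E 1) ≤ 2 ^ (n + 1)

/-- The point `P` of `E (K)`, in `E (Sep K)`. -/
noncomputable def overSep (E : WeierstrassCurve K) (P : Pt E K) : Pt E (Sep K) :=
  act E (incl K K (Sep K)) P

theorem isCoc_zero (E : WeierstrassCurve K) :
    IsCoc E (fun _ : Sep K ≃ₐ[K] Sep K => (0 : Pt E (Sep K))) :=
  ⟨IsLocallyConstant.const 0, fun σ τ => by rw [map_zero, add_zero]⟩

theorem isSelmer_pt (E : WeierstrassCurve K) (n : ℕ) (P : Pt E K) :
    IsSelmer E n (fun _ => 0, overSep E P) :=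
  ⟨isCoc_zero E, Pool.Agent.H467.GK.lta_zero E, fun σ => by
    rw [smul_zero]
    exact (sub_eq_zero.2 (rs_act_incl (K := K) (F := K) E σ P)).symm⟩

/-- The map `E (K) → Sel (E, 2 ^ n)`, `P ↦ (0, P)`, with the kernel `2 ^ n E (K)`. -/
noncomputable def kummer (E : WeierstrassCurve K) (n : ℕ) (P : Pt E K) : Sel E n :=
  Quotient.mk (selSetoid E n) ⟨(fun _ => 0, overSep E P), isSelmer_pt E n P⟩

theorem isSelmer_double (E : WeierstrassCurve K) (n : ℕ) (p : Pair E) (h : IsSelmer E (n + 1) p) :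
    IsSelmer E n (fun σ => 2 • p.1 σ, p.2) := by
  obtain ⟨h1, h2, h3⟩ := h
  refine ⟨⟨h1.lc.comp (fun x => 2 • x), fun σ τ => ?_⟩, h2.nsmul 2, fun σ => ?_⟩
  · show 2 • p.1 (σ * τ) = 2 • p.1 σ + act E (rs K σ) (2 • p.1 τ)
    rw [h1.mul, smul_add, map_nsmul]
  · show 2 ^ n • (2 • p.1 σ) = _
    rw [← h3 σ, smul_smul, ← pow_succ]

/-- The map `Sel (E, 2 ^ (n + 1)) → Sel (E, 2 ^ n)`, `(c, R) ↦ (2 c, R)`, induced by the multiplication by
two `E[2 ^ (n + 1)] → E[2 ^ n]`. -/
noncomputable def double (E : WeierstrassCurve K) (n : ℕ) : Sel E (n + 1) → Sel E n :=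
  Quotient.map (fun p => ⟨(fun σ => 2 • p.1.1 σ, p.1.2), isSelmer_double E n p.1 p.2⟩) (by
    rintro p q ⟨Q, h1, h2⟩
    refine ⟨2 • Q, ?_, fun σ => ?_⟩
    · rw [smul_smul, ← pow_succ]
      exact h1
    · show 2 • p.1.1 σ - 2 • q.1.1 σ = _
      rw [← smul_sub, h2 σ, smul_sub, map_nsmul])

/-- The elements `x n` of `Sel (E, 2 ^ n)` give an element of `Sel (E, ℤ_2)`, the inverse limit. -/
def IsAdicSelmer (E : WeierstrassCurve K) (x : ∀ n, Sel E n) : Prop :=
  ∀ n, double E n (x (n + 1)) = x n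

/-- The points `P n` give an element of the inverse limit of the groups `E (K) / 2 ^ n E (K)`, which is
`E (K) ⊗ ℤ_2` if `E (K)` is finitely generated. -/
def IsAdicPoint (E : WeierstrassCurve K) (P : ℕ → Pt E K) : Prop :=
  ∀ n, ∃ Q : Pt E K, P (n + 1) - P n = 2 ^ n • Q

/-- The Selmer group conjecture for `E` and the prime two: `E (K)` is finitely generated (this is known),
and the natural map `E (K) ⊗ ℤ_2 → Sel (E, ℤ_2)` is injective and surjective. -/
def SelmerConjecture (E : WeierstrassCurve K) : Prop :=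
  AddGroup.FG (Pt E K) ∧
  (∀ P : ℕ → Pt E K, IsAdicPoint E P → (∀ n, kummer E n (P n) = kummer E n 0) →
    ∀ n, ∃ Q : Pt E K, P n = 2 ^ n • Q) ∧
  ∀ x : ∀ n, Sel E n, IsAdicSelmer E x →
    ∃ P : ℕ → Pt E K, IsAdicPoint E P ∧ ∀ n, kummer E n (P n) = x n

/-- The class of the cocycle `f` in `H ^ 1 (K, E)` is trivial. -/
def IsTrivial (E : WeierstrassCurve K) (f : (Sep K ≃ₐ[K] Sep K) → Pt E (Sep K)) : Prop :=
  ∃ R : Pt E (Sep K), ∀ σ, f σ = act E (rs K σ) R - R

/-- `T_2 Ш (E) = 0`: let the cocycles `f n` give elements of the Tate-Shafarevich group with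
`2 ^ n f n = 0`, `2 f (n + 1) = f n`; then all of them are trivial. -/
def TateModuleOfShaTrivial (E : WeierstrassCurve K) : Prop :=
  ∀ f : ℕ → (Sep K ≃ₐ[K] Sep K) → Pt E (Sep K), (∀ n, IsCoc E (f n) ∧ LTA E (f n)) →
    (∀ n, IsTrivial E (fun σ => 2 ^ n • f n σ)) →
    (∀ n, IsTrivial E (fun σ => 2 • f (n + 1) σ - f n σ)) → ∀ n, IsTrivial E (f n)

/-- There are only finitely many `K`-rational points, the 2-primary part of the Tate-Shafarevich group is
killed by two, its Tate module is trivial, and the Selmer group conjecture is true. -/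
structure ConjectureHolds (E : WeierstrassCurve K) : Prop where
  finite : Finite (Pt E K)
  sha : ∀ f : (Sep K ≃ₐ[K] Sep K) → Pt E (Sep K), IsCoc E f → LTA E f →
    (∃ n : ℕ, IsTrivial E (fun σ => 2 ^ n • f σ)) → IsTrivial E (fun σ => 2 • f σ)
  tate : TateModuleOfShaTrivial E
  conjecture : SelmerConjecture E

end flat

/-! ### Proportions -/

/-- For large `X` the set `S X` has at least `c` times as many elements as `T X`. -/
def AtLeastShare {α : Type} (S T : ℕ → Set α) (c : ℝ) : Prop :=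
  ∀ᶠ X : ℕ in atTop, c * ((T X).ncard : ℝ) ≤ ((S X).ncard : ℝ)

/-- The proportion of the elements of `T X` which are in `S X` tends to `p`. -/
def HasDensity {α : Type} (S T : ℕ → Set α) (p : ℝ) : Prop :=
  Tendsto (fun X : ℕ => ((S X).ncard : ℝ) / ((T X).ncard : ℝ)) atTop (nhds p)

/-! ### Comparison with the helper files -/

section aux

open Pool.Agent.H467.PG

theorem inImage_iff {L : Type} [Field L] [CharP L 2] (a b α : L) :
    InImage a b α ↔ Pool.Agent.H467.CT.LV a b α := by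
  unfold InImage Pool.Agent.H467.CT.LV Pool.Agent.H467.CT.AS
  refine or_congr Iff.rfl (exists_congr fun x => ?_)
  have h2 : ∀ w : L, w + w = 0 := CharTwo.add_self_eq_zero
  constructor
  · rintro ⟨y, z, h1, hz⟩
    refine ⟨⟨z, by rw [← hz]; ring⟩, fun hx => ?_, ?_⟩
    · refine ⟨y / x, ?_⟩
      have hx2 : x ^ 2 ≠ 0 := pow_ne_zero 2 hx
      have h3 : (y / x) ^ 2 + y / x = (y ^ 2 + x * y) / x ^ 2 := by
        field_simp
      rw [h3, h1]
      field_simp
    · rintro rfl
      refine ⟨y, ?_⟩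
      have h3 : y ^ 2 = b := by
        have : y ^ 2 + 0 * y = y ^ 2 := by ring
        rw [← this, h1]
        ring
      rw [← h3, pow_two]
  · rintro ⟨⟨z, hz⟩, h3, h4⟩
    by_cases hx : x = 0
    · obtain ⟨y, hy⟩ := h4 hx
      refine ⟨y, z, ?_, by rw [← hz]; ring⟩
      rw [hx, hy]
      ring
    · obtain ⟨w, hw⟩ := h3 hx
      refine ⟨x * w, z, ?_, by rw [← hz]; ring⟩
      have h5 : (x * w) ^ 2 + x * (x * w) = x ^ 2 * (w ^ 2 + w) := by ring
      rw [h5, ← hw]
      field_simp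

theorem selmer_eq {K : Type} [Field K] [CharP K 2] (a b : K) :
    Selmer a b = {χ : Qc K | ∀ α : K, mkq α = χ → Pool.Agent.H467.GK.AllVA a b α} := by
  ext χ
  constructor
  · intro h α hα u hu
    exact (inImage_iff _ _ _).1 (h α hα ⟨u, hu⟩)
  · intro h α hα v
    exact (inImage_iff _ _ _).2 (h α hα v.1 v.2)

theorem extLE_eq {K : Type} [Field K] [CharP K 2] (X : ℕ) :
    ExtLE K X = {χ : Qc K | ∃ a, mkq a = χ ∧ Pool.Agent.H467.PG.Asm.cN a ≤ X} := rfl

theorem selmer_Sg {K : Type} [Field K] [CharP K 2] (a b : K) :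
    Selmer a b = Pool.Agent.H467.PU.Asmw.Sg a b := selmer_eq a b

theorem localImage_eq {K : Type} [Field K] [CharP K 2] (v : Place K) (a b : K) :
    localImage v a b = Pool.Agent.H467.PU.Crd.LI (K := K) v a b := by
  ext χ
  exact forall_congr' fun α => imp_congr Iff.rfl (inImage_iff _ _ _)

theorem excess_eq {K : Type} [Field K] [CharP K 2] (a b : K) :
    excess a b = Pool.Agent.H467.PU.Asmw.exc a b := by
  have h : ∀ v : Place K, ((Nat.log 2 (localImage v (a ^ 2) (b ^ 2)).ncard : ℤ) - 1) =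
      ((Nat.log 2 (Pool.Agent.H467.PU.Crd.LI (K := K) v (a ^ 2) (b ^ 2)).ncard : ℤ) - 1) :=
    fun v => by rw [localImage_eq]; rfl
  exact finsum_congr h

theorem family_eq {K : Type} [Field K] [CharP K 2] (a₀ b : K) (P : Ext K → Prop) (u : ℤ) (X : ℕ) :
    Family a₀ b P u X = Pool.Agent.H467.PU.Asmw.Fam a₀ b P u X := by
  have h : ∀ χ : Ext K, (∀ a : K, ext a = χ → excess (a₀ + a) b = u) ↔
      ∀ a : K, mkq a = χ → Pool.Agent.H467.PU.Asmw.exc (a₀ + a) b = u := fun χ =>
    forall_congr' fun a => imp_congr Iff.rfl (by rw [excess_eq])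
  ext χ
  exact and_congr Iff.rfl (and_congr Iff.rfl (h χ))

theorem selmerFamily_eq {K : Type} [Field K] [CharP K 2] (a₀ b : K) (P : Ext K → Prop) (u : ℤ)
    (n X : ℕ) : SelmerFamily a₀ b P u n X =
      {χ ∈ Pool.Agent.H467.PU.Asmw.Fam a₀ b P u X | ∀ a : K, mkq a = χ →
        (Pool.Agent.H467.PU.Asmw.Sg ((a₀ + a) ^ 2) (b ^ 2)).ncard = n} := by
  unfold SelmerFamily
  rw [family_eq]
  ext χ
  exact and_congr Iff.rfl (forall_congr' fun a => imp_congr Iff.rfl (by rw [selmer_Sg]; rfl))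

/-- The law. -/
theorem law {k K : Type} [Field k] [Finite k] [CharP k 2] [Field K] [CharP K 2] [Algebra k K]
    (hK : IsFF k K) (a₀ b : K) (hb : b ≠ 0) (P : Ext K → Prop) (hP : LocalCondition P) (u : ℤ)
    (hne : ∃ X, (Family a₀ b P u X).Nonempty) :
    (∃ c : ℝ, 0 < c ∧ ∀ᶠ X : ℕ in atTop, c * (X : ℝ) ≤ ((Family a₀ b P u X).ncard : ℝ)) ∧
      ∀ r s : ℕ, (s : ℤ) = r + u →
        Tendsto (fun X : ℕ => ((SelmerFamily a₀ b P u (2 ^ (s + 1)) X).ncard : ℝ) /
          ((Family a₀ b P u X).ncard : ℝ)) atTop (nhds (prob s r)) := by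
  obtain ⟨S, hS⟩ := hP
  obtain ⟨X₀, χ, hχ⟩ := hne
  rw [family_eq] at hχ
  obtain ⟨h1, h2⟩ := Pool.Agent.H467.PU.Asmw.lawU (k := k) Pool.Agent.H467.PU.Finw.hJINW hK a₀ b hb
    P S hS u ⟨χ, hχ.2.1, hχ.2.2⟩
  refine ⟨?_, fun r s hrs => ?_⟩
  · obtain ⟨c, hc, h3⟩ := h1
    refine ⟨c, hc, h3.mono fun X hX => ?_⟩
    rw [family_eq]
    exact hX
  · refine (h2 r s hrs).congr fun X => ?_
    rw [← selmerFamily_eq, ← family_eq]
    rfl

/-- Disjoint subsets. -/
theorem sum_ncard_le {α ι : Type} (R : Finset ι) : ∀ (T : Set α), T.Finite → ∀ A : ι → Set α,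
    (∀ r ∈ R, A r ⊆ T) → (∀ r ∈ R, ∀ r' ∈ R, r ≠ r' → Disjoint (A r) (A r')) →
    ∑ r ∈ R, (A r).ncard ≤ T.ncard := by
  induction R using Finset.induction_on with
  | empty => intro T _ A _ _; simp
  | insert r R hr ih =>
    intro T hT A h1 h2
    rw [Finset.sum_insert hr]
    have h3 : A r ⊆ T := h1 r (Finset.mem_insert_self r R)
    have h4 := ih (T \ A r) (hT.subset Set.diff_subset) A (fun r' hr' x hx =>
      ⟨h1 r' (Finset.mem_insert_of_mem hr') hx, fun hx' =>
        Set.disjoint_left.1 (h2 r' (Finset.mem_insert_of_mem hr') r (Finset.mem_insert_self r R)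
          (by rintro rfl; exact hr hr')) hx hx'⟩)
      (fun r' hr' r'' hr'' => h2 r' (Finset.mem_insert_of_mem hr') r'' (Finset.mem_insert_of_mem hr''))
    have h5 := Set.ncard_diff_add_ncard_of_subset h3 hT
    omega

/-- Few classes. -/
theorem card_sel {K : Type} [Field K] (E : WeierstrassCurve K) (N : ℕ) (G : Finset (Pair E))
    (hG : G.card ≤ N) (h : ∀ p, IsSelmer E 1 p → ∃ q ∈ G, Same E 1 p q) :
    Finite (Sel E 1) ∧ Nat.card (Sel E 1) ≤ N := by
  choose! g hg1 hg2 using h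
  let f : Sel E 1 → G := fun x => ⟨g x.out.1, hg1 _ x.out.2⟩
  have hf : Function.Injective f := by
    intro x y hxy
    have h1 : g x.out.1 = g y.out.1 := congrArg Subtype.val hxy
    have h2 : Same E 1 x.out.1 y.out.1 := (hg2 _ x.out.2).trans (by
      rw [h1]
      exact (hg2 _ y.out.2).symm)
    rw [← x.out_eq, ← y.out_eq]
    exact Quotient.sound h2
  refine ⟨Finite.of_injective f hf, (Nat.card_le_card_of_injective f hf).trans ?_⟩
  simpa using hG

/-- The flat Selmer group of one curve. -/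
theorem flat_one {k K : Type} [Field k] [Finite k] [CharP k 2] [Field K] [CharP K 2]
    [Algebra k K] (hK : IsFF k K) (a b : K) (hb : b ≠ 0) (r s : ℕ)
    (hrs : (s : ℤ) = r + excess a b) (h : (Selmer (a ^ 2) (b ^ 2)).ncard = 2 ^ (s + 1)) :
    Finite (Sel (curve a (b ^ 2)) 1) ∧ Nat.card (Sel (curve a (b ^ 2)) 1) ≤ 2 ^ (s + r + 1) := by
  rw [excess_eq] at hrs
  rw [selmer_Sg] at h
  obtain ⟨G, hG1, hG2⟩ := Pool.Agent.H467.PU.Asmw.flat_one (k := k) hK a b hb r s hrs h
  refine card_sel (curve a (b ^ 2)) _ G (hG1.trans (le_of_eq (by ring))) fun p hp => ?_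
  obtain ⟨q, hq1, Q, hq2, hq3⟩ := hG2 p ⟨hp.1, hp.2.1, fun σ => by
    have h1 := hp.2.2 σ
    rw [pow_one, two_nsmul] at h1
    exact h1⟩
  refine ⟨q, hq1, Q, ?_, hq3⟩
  rw [pow_one, two_nsmul]
  exact hq2

/-- The kernel of the map of Kummer. -/
theorem kummer_eq {K : Type} [Field K] (E : WeierstrassCurve K) (n : ℕ) (P P' : Pt E K)
    (h : kummer E n P = kummer E n P') : ∃ Q : Pt E K, P - P' = 2 ^ n • Q := by
  obtain ⟨Q, h1, h2⟩ : Same E n (fun _ => 0, overSep E P) (fun _ => 0, overSep E P') :=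
    Quotient.exact h
  obtain ⟨Q₀, rfl⟩ := fixed_point (K := K) (F := K) E Q fun σ => by
    have h3 := h2 σ
    rw [sub_self] at h3
    exact sub_eq_zero.1 h3.symm
  refine ⟨Q₀, act_inj E (incl K K (Sep K)) ?_⟩
  rw [map_sub, map_nsmul]
  exact h1.symm

theorem double_kummer {K : Type} [Field K] (E : WeierstrassCurve K) (n : ℕ) (P : Pt E K) :
    double E n (kummer E (n + 1) P) = kummer E n P := by
  refine Quotient.sound ⟨0, ?_, fun σ => ?_⟩
  · rw [smul_zero]
    exact (sub_self _).symm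
  · show 2 • (0 : Pt E (Sep K)) - 0 = _
    rw [smul_zero, map_zero]

/-- The conjecture for the curves with finite groups of points, and Tate-Shafarevich groups which are
killed by two. -/
theorem conj_of {K : Type} [Field K] (E : WeierstrassCurve K) (hfin : Finite (Pt E K))
    (hsha : ∀ f : (Sep K ≃ₐ[K] Sep K) → Pt E (Sep K), IsCoc E f → LTA E f →
      (∃ n : ℕ, IsTrivial E (fun σ => 2 ^ n • f σ)) → IsTrivial E (fun σ => 2 • f σ)) :
    ConjectureHolds E := by
  refine ⟨hfin, hsha, ?_, ⟨inferInstance, ?_, ?_⟩⟩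
  · intro f h1 h2 h3 n
    obtain ⟨R, hR⟩ := hsha (f (n + 1)) (h1 (n + 1)).1 (h1 (n + 1)).2 ⟨n + 1, h2 (n + 1)⟩
    obtain ⟨R', hR'⟩ := h3 n
    replace hR : ∀ σ, 2 • f (n + 1) σ = act E (rs K σ) R - R := hR
    replace hR' : ∀ σ, 2 • f (n + 1) σ - f n σ = act E (rs K σ) R' - R' := hR'
    refine ⟨R - R', fun σ => ?_⟩
    have h4 : f n σ = 2 • f (n + 1) σ - (2 • f (n + 1) σ - f n σ) := by abel
    rw [h4, hR' σ, hR σ, map_sub]
    abel
  · intro P _ h n
    obtain ⟨Q, hQ⟩ := kummer_eq E n (P n) 0 (h n)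
    rw [sub_zero] at hQ
    exact ⟨Q, hQ⟩
  · intro x hx
    have h1 : ∀ n, ∃ P : Pt E K, kummer E n P = x n := by
      intro n
      obtain ⟨⟨p, hp⟩, hp1⟩ := Quotient.exists_rep (x n)
      obtain ⟨⟨q, hq⟩, hq1⟩ := Quotient.exists_rep (x (n + 1))
      obtain ⟨Q, h2, h3⟩ : Same E n (fun σ => 2 • q.1 σ, q.2) p := by
        have h4 := hx n
        rw [← hp1, ← hq1] at h4
        exact Quotient.exact h4
      obtain ⟨Q', h5⟩ := hsha q.1 hq.1 hq.2.1 ⟨n + 1, q.2, hq.2.2⟩
      replace h5 : ∀ σ, 2 • q.1 σ = act E (rs K σ) Q' - Q' := h5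
      replace h3 : ∀ σ, 2 • q.1 σ - p.1 σ = act E (rs K σ) Q - Q := h3
      obtain ⟨P, hP⟩ := fixed_point (K := K) (F := K) E (p.2 - 2 ^ n • (Q' - Q)) fun σ => by
        have h6 : p.1 σ = act E (rs K σ) (Q' - Q) - (Q' - Q) := by
          have h7 : p.1 σ = 2 • q.1 σ - (2 • q.1 σ - p.1 σ) := by abel
          rw [h7, h3 σ, h5 σ, map_sub]
          abel
        have h7 := hp.2.2 σ
        rw [h6, smul_sub, ← map_nsmul] at h7
        rw [map_sub, ← sub_eq_zero]
        have h8 : act E (rs K σ) p.2 - act E (rs K σ) (2 ^ n • (Q' - Q)) -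
            (p.2 - 2 ^ n • (Q' - Q)) = (act E (rs K σ) p.2 - p.2) -
              (act E (rs K σ) (2 ^ n • (Q' - Q)) - 2 ^ n • (Q' - Q)) := by abel
        rw [h8, h7, sub_self]
      refine ⟨P, ?_⟩
      rw [← hp1]
      refine Quotient.sound (Same.symm ⟨Q' - Q, ?_, fun σ => ?_⟩)
      · show 2 ^ n • (Q' - Q) = p.2 - overSep E P
        rw [overSep, hP]
        abel
      · show p.1 σ - 0 = _
        have h7 : p.1 σ = 2 • q.1 σ - (2 • q.1 σ - p.1 σ) := by abel
        rw [sub_zero, h7, h3 σ, h5 σ, map_sub]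
        abel
    choose P hP using h1
    refine ⟨P, fun n => ?_, hP⟩
    refine kummer_eq E n (P (n + 1)) (P n) ?_
    rw [hP n, ← hx n, ← hP (n + 1), double_kummer]

/-- The conjecture for the curves with the smallest Selmer groups. -/
theorem conj_one {k K : Type} [Field k] [Finite k] [CharP k 2] [Field K] [CharP K 2]
    [Algebra k K] (hK : IsFF k K) (a b : K) (hb : b ≠ 0) (ha : ¬ ∃ z : K, a = z ^ 2 + z)
    (hx : excess a b = 0) (h2 : (Selmer (a ^ 2) (b ^ 2)).ncard = 2) :
    ConjectureHolds (curve a b) := by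
  rw [excess_eq] at hx
  rw [selmer_Sg] at h2
  obtain ⟨h3, h4, -⟩ := Pool.Agent.H467.PU.Asmw.one_zero (k := k) hK a b hb ha hx h2
  exact conj_of (curve a b) h3 fun f hf1 hf2 hf3 => h4 f hf1 hf2 hf3

/-- The twists for which the conjecture holds, in a family of excess zero. -/
theorem share {k K : Type} [Field k] [Finite k] [CharP k 2] [Field K] [CharP K 2] [Algebra k K]
    (hK : IsFF k K) (a₀ b : K) (hb : b ≠ 0) (P : Ext K → Prop) (hP : LocalCondition P)
    (hne : ∃ X, (Family a₀ b P 0 X).Nonempty) (c : ℝ) (hc : c < prob 0 0) :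
    AtLeastShare (fun X => {χ ∈ Family a₀ b P 0 X | ∀ a : K, ext a = χ →
      ConjectureHolds (curve (a₀ + a) b)}) (Family a₀ b P 0) c := by
  obtain ⟨C, hC⟩ := Pool.Agent.H467.PU.Asmw.allU (k := k) (K := K) hK
  have hfin : ∀ X, (Family a₀ b P 0 X).Finite := fun X => (hC X).1.subset fun χ h => h.1
  obtain ⟨⟨c₀, hc₀, h1⟩, h2⟩ := law hK a₀ b hb P hP 0 hne
  have hX : Tendsto (fun X : ℕ => ((Family a₀ b P 0 X).ncard : ℝ)) atTop atTop := by
    refine tendsto_atTop_mono' atTop h1 ?_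
    exact Tendsto.const_mul_atTop hc₀ tendsto_natCast_atTop_atTop
  obtain ⟨c₁, hc1, hc2⟩ := exists_between hc
  have h3 : ∀ᶠ X : ℕ in atTop, c₁ < ((SelmerFamily a₀ b P 0 (2 ^ (0 + 1)) X).ncard : ℝ) /
      ((Family a₀ b P 0 X).ncard : ℝ) := (h2 0 0 (by simp)).eventually (lt_mem_nhds hc2)
  filter_upwards [h3, hX.eventually_ge_atTop (1 / (c₁ - c)), hX.eventually_gt_atTop 0]
    with X h4 h5 h6
  have h7 : c₁ * ((Family a₀ b P 0 X).ncard : ℝ) <
      ((SelmerFamily a₀ b P 0 (2 ^ (0 + 1)) X).ncard : ℝ) := by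
    rwa [← lt_div_iff₀ h6]
  have h8 : (SelmerFamily a₀ b P 0 (2 ^ (0 + 1)) X).ncard ≤
      {χ ∈ Family a₀ b P 0 X | ∀ a : K, ext a = χ →
        ConjectureHolds (curve (a₀ + a) b)}.ncard + 1 := by
    refine le_trans (Set.ncard_le_ncard (t := insert (mkq a₀)
      {χ ∈ Family a₀ b P 0 X | ∀ a : K, ext a = χ → ConjectureHolds (curve (a₀ + a) b)}) ?_ ?_)
      (Set.ncard_insert_le _ _)
    · rintro χ ⟨h9, h10⟩
      by_cases h11 : χ = mkq a₀
      · exact Or.inl h11
      · refine Or.inr ⟨h9, fun a ha => ?_⟩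
        refine conj_one hK (a₀ + a) b hb ?_ (h9.2.2 a ha) (by simpa using h10 a ha)
        rintro ⟨z, hz⟩
        apply h11
        rw [← ha]
        change mkq a = mkq a₀
        refine Asm.mkq_eq.2 ⟨z, ?_⟩
        have h12 : a = a₀ + (a₀ + a) := by
          rw [← add_assoc, CharTwo.add_self_eq_zero, zero_add]
        rw [h12, hz]
        ring
    · exact ((hfin X).subset fun χ h => h.1).insert _
  have h9 : (1 : ℝ) ≤ (c₁ - c) * ((Family a₀ b P 0 X).ncard : ℝ) := by
    have h10 : 0 < c₁ - c := sub_pos.2 hc1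
    rw [div_le_iff₀ h10] at h5
    linarith
  have h10 : ((SelmerFamily a₀ b P 0 (2 ^ (0 + 1)) X).ncard : ℝ) ≤
      ({χ ∈ Family a₀ b P 0 X | ∀ a : K, ext a = χ →
        ConjectureHolds (curve (a₀ + a) b)}.ncard : ℝ) + 1 := by exact_mod_cast h8
  show c * ((Family a₀ b P 0 X).ncard : ℝ) ≤ _
  linarith

/-- The family of excess zero is not empty. -/
theorem zero_ne {k K : Type} [Field k] [Finite k] [CharP k 2] [Field K] [CharP K 2]
    [Algebra k K] (hK : IsFF k K) (a₀ b : K) (hb : b ≠ 0) :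
    ∃ X, (Family a₀ b (fun _ => True) 0 X).Nonempty := by
  obtain ⟨χ, h⟩ := Pool.Agent.H467.PU.Asmw.bal_ex (k := k) hK a₀ b hb
  obtain ⟨a, ha⟩ := Asm.mkq_surj χ
  obtain ⟨F⟩ := Fin.hGF k K hK
  refine ⟨condNorm a, χ, ⟨a, ha, le_refl _⟩, trivial, fun a' ha' => ?_⟩
  rw [excess_eq]
  exact Pool.Agent.H467.PU.Asmw.exc_bal F (a₀ + a') b hb fun j => h a' ha' j

/-- The proportion of the twists with large flat Selmer groups. -/
theorem tail {k K : Type} [Field k] [Finite k] [CharP k 2] [Field K] [CharP K 2]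
    [Algebra k K] (hK : IsFF k K) (a₀ b : K) (hb : b ≠ 0) :
    ∃ C : ℝ, ∀ n : ℕ, AtLeastShare (fun X => {χ ∈ ExtLE K X | ∀ a : K, ext a = χ →
      SelLE (curve (a₀ + a) (b ^ 2)) n}) (ExtLE K) (1 - C * (1 / 2) ^ (n ^ 2 / 4)) := by
  obtain ⟨C₀, hC₀⟩ := Pool.Agent.H467.PU.Asmw.allU (k := k) (K := K) hK
  obtain ⟨C, hC⟩ := Pool.Agent.H467.PU.Asmw.tailU (k := k) hK a₀ b hb
  refine ⟨C, fun n => ?_⟩
  filter_upwards [hC n] with X hX
  refine hX.trans ?_
  have h1 := Set.ncard_le_ncard (s := {χ : Qc K | (∃ a, mkq a = χ ∧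
      Pool.Agent.H467.PG.Asm.cN a ≤ X) ∧ ∀ a : K, mkq a = χ →
        ∃ r s : ℕ, (s : ℤ) = r + Pool.Agent.H467.PU.Asmw.exc (a₀ + a) b ∧ s + r ≤ n ∧
          (Pool.Agent.H467.PU.Asmw.Sg ((a₀ + a) ^ 2) (b ^ 2)).ncard = 2 ^ (s + 1)})
    (t := {χ ∈ ExtLE K X | ∀ a : K, ext a = χ → SelLE (curve (a₀ + a) (b ^ 2)) n}) ?_
    ((hC₀ X).1.subset fun χ h => h.1)
  · exact_mod_cast h1
  · rintro χ ⟨h2, h3⟩
    refine ⟨h2, fun a ha => ?_⟩
    obtain ⟨r, s, h4, h5, h6⟩ := h3 a ha
    obtain ⟨h7, h8⟩ := flat_one hK (a₀ + a) b hb r s (by rw [excess_eq]; exact h4)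
      (by rw [selmer_Sg]; exact h6)
    exact ⟨h7, h8.trans (Nat.pow_le_pow_right (by norm_num) (by omega))⟩

/-- The distribution in one family. -/
theorem dist {k K : Type} [Field k] [Finite k] [CharP k 2] [Field K] [CharP K 2] [Algebra k K]
    (hK : IsFF k K) (a₀ b : K) (hb : b ≠ 0) (P : Ext K → Prop) (hP : LocalCondition P) (u : ℤ)
    (hne : ∃ X, (Family a₀ b P u X).Nonempty) (n : ℕ) (c : ℝ) (hc : c < probLE u n) :
    AtLeastShare (fun X => {χ ∈ Family a₀ b P u X | ∀ a : K, ext a = χ →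
      SelLE (curve (a₀ + a) (b ^ 2)) n}) (Family a₀ b P u) c := by
  obtain ⟨C, hC⟩ := Pool.Agent.H467.PU.Asmw.allU (k := k) (K := K) hK
  have hfin : ∀ X, (Family a₀ b P u X).Finite := fun X => (hC X).1.subset fun χ h => h.1
  obtain ⟨⟨c₀, hc₀, h1⟩, h2⟩ := law hK a₀ b hb P hP u hne
  have h3 : Tendsto (fun X : ℕ => ∑ r ∈ (Finset.range (n + 1)).filter
      (fun r : ℕ => 0 ≤ r + u ∧ 2 * r + u ≤ n),
        ((SelmerFamily a₀ b P u (2 ^ ((r + u).toNat + 1)) X).ncard : ℝ) /
          ((Family a₀ b P u X).ncard : ℝ)) atTop (nhds (probLE u n)) := by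
    refine tendsto_finsetSum _ fun r hr => ?_
    have h4 := (Finset.mem_filter.1 hr).2
    exact h2 r (r + u).toNat (by rw [Int.toNat_of_nonneg h4.1])
  filter_upwards [h3.eventually (lt_mem_nhds hc), h1, eventually_gt_atTop 0] with X h4 h5 h6
  have h7 : (0 : ℝ) < ((Family a₀ b P u X).ncard : ℝ) :=
    lt_of_lt_of_le (mul_pos hc₀ (by exact_mod_cast h6)) h5
  rw [← Finset.sum_div, lt_div_iff₀ h7] at h4
  refine h4.le.trans ?_
  have h8 := sum_ncard_le ((Finset.range (n + 1)).filter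
      (fun r : ℕ => 0 ≤ r + u ∧ 2 * r + u ≤ n)) {χ ∈ Family a₀ b P u X | ∀ a : K, ext a = χ →
      SelLE (curve (a₀ + a) (b ^ 2)) n} ((hfin X).subset fun χ h => h.1)
    (fun r => SelmerFamily a₀ b P u (2 ^ ((r + u).toNat + 1)) X) (fun r hr χ h9 => by
      obtain ⟨h10, h11⟩ := (Finset.mem_filter.1 hr).2
      refine ⟨h9.1, fun a ha => ?_⟩
      obtain ⟨h12, h13⟩ := flat_one hK (a₀ + a) b hb r (r + u).toNat
        (by rw [Int.toNat_of_nonneg h10, h9.1.2.2 a ha]) (h9.2 a ha)
      exact ⟨h12, h13.trans (Nat.pow_le_pow_right (by norm_num) (by omega))⟩)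
    (fun r hr r' hr' hrr => by
      have h10 := (Finset.mem_filter.1 hr).2.1
      have h11 := (Finset.mem_filter.1 hr').2.1
      rw [Set.disjoint_left]
      intro χ h12 h13
      obtain ⟨a, ha⟩ := Asm.mkq_surj χ
      have h14 := (h12.2 a ha).symm.trans (h13.2 a ha)
      have h15 := Nat.pow_right_injective (le_refl 2) h14
      omega)
  exact_mod_cast h8

theorem prob_hasSum (u : ℤ) :
    HasSum (fun r : ℕ => if 0 ≤ (r : ℤ) + u then prob ((r : ℤ) + u).toNat r else 0) 1 := by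
  have hp := Pool.Agent.H467.PU.Pnu.pnu
  obtain ⟨w, rfl | rfl⟩ := u.eq_nat_or_neg
  · refine Eq.mp ?_ (hp.2.2.2 w)
    congr 1
  · have h := hp.2.2.2 w
    refine (Function.Injective.hasSum_iff (g := fun i => i + w) (add_left_injective w) ?_).1 ?_
    · intro r hr
      refine if_neg fun h1 => hr ⟨r - w, ?_⟩
      show r - w + w = r
      omega
    · refine Eq.mp ?_ h
      congr 1
      funext i
      show Pool.Agent.H467.PU.alq (i + w) i = if 0 ≤ ((i + w : ℕ) : ℤ) + -(w : ℤ) then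
        prob (((i + w : ℕ) : ℤ) + -(w : ℤ)).toNat (i + w) else 0
      have e : (((i + w : ℕ) : ℤ) + -(w : ℤ)) = (i : ℤ) := by
        push_cast
        ring
      rw [e, if_pos (Int.natCast_nonneg i), Int.toNat_natCast]
      exact hp.2.1 (i + w) i

theorem tendsto_probLE (u : ℤ) : Tendsto (fun n => probLE u n) atTop (nhds 1) := by
  have h1 : Tendsto (fun n : ℕ => (Finset.range (n + 1)).filter
      (fun r : ℕ => 2 * (r : ℤ) + u ≤ n)) atTop atTop := by
    refine tendsto_atTop_finset_of_monotone ?_ fun r => ?_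
    · intro n m hnm r hr
      rw [Finset.mem_filter, Finset.mem_range] at hr ⊢
      have : (n : ℤ) ≤ m := by exact_mod_cast hnm
      exact ⟨by omega, by omega⟩
    · refine ⟨r + (2 * (r : ℤ) + u).toNat, ?_⟩
      rw [Finset.mem_filter, Finset.mem_range]
      have := Int.self_le_toNat (2 * (r : ℤ) + u)
      refine ⟨by omega, ?_⟩
      push_cast
      omega
  refine (Tendsto.comp (prob_hasSum u) h1).congr fun n => ?_
  unfold probLE
  show (∑ r ∈ (Finset.range (n + 1)).filter (fun r : ℕ => 2 * (r : ℤ) + u ≤ n),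
    if 0 ≤ (r : ℤ) + u then prob ((r : ℤ) + u).toNat r else 0) = _
  rw [← Finset.sum_filter, Finset.filter_filter]
  exact Finset.sum_congr (Finset.filter_congr fun r _ => and_comm) fun _ _ => rfl

/-- The densities of the families. -/
theorem dens0 {k K : Type} [Field k] [Finite k] [CharP k 2] [Field K] [CharP K 2]
    [Algebra k K] (hK : IsFF k K) (a₀ b : K) (hb : b ≠ 0) :
    ∃ (δ : ℤ → ℝ) (T : Finset ℤ), (∀ u, 0 ≤ δ u) ∧ 0 < δ 0 ∧ (∀ u, u ∉ T → δ u = 0) ∧
      ∑ u ∈ T, δ u = 1 ∧ (∀ u, 0 < δ u → ∃ X, (Family a₀ b (fun _ => True) u X).Nonempty) ∧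
      ∀ u, HasDensity (Family a₀ b (fun _ => True) u) (ExtLE K) (δ u) := by
  obtain ⟨F⟩ := Fin.hGF k K hK
  obtain ⟨N, hN, hmix⟩ := Pool.Agent.H467.PU.Asmw.mixU (k := k) Pool.Agent.H467.PU.Finw.hDSD hK
    a₀ b hb
  obtain ⟨δ, h0, h1, h2, h3, -⟩ := hmix (fun _ => True) ∅ (fun _ _ _ _ => trivial)
  have hiff : ∀ u, 0 < δ u ↔ ∃ X, (Family a₀ b (fun _ => True) u X).Nonempty := by
    intro u
    refine (h1 u).trans ?_
    constructor
    · rintro ⟨χ, h5, h6⟩
      obtain ⟨a, ha⟩ := Asm.mkq_surj χ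
      refine ⟨condNorm a, χ, ?_⟩
      rw [family_eq, Pool.Agent.H467.PU.Asmw.fam_sep F a₀ b hb _ u]
      exact ⟨⟨a, ha, le_refl _⟩, h5, h6⟩
    · rintro ⟨X, χ, h5⟩
      rw [family_eq, Pool.Agent.H467.PU.Asmw.fam_sep F a₀ b hb _ u] at h5
      exact ⟨χ, h5.2.1, h5.2.2⟩
  refine ⟨δ, Finset.Icc (-(N : ℤ)) N, h0, (hiff 0).2 (zero_ne hK a₀ b hb), ?_, ?_,
    fun u => (hiff u).1, fun u => ?_⟩
  · intro u hu
    by_contra h5
    obtain ⟨χ, -, h6⟩ := (h1 u).1 (lt_of_le_of_ne (h0 u) (Ne.symm h5))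
    apply hu
    rw [← h6]
    exact hN (a₀ + χ.out)
  · have hT : LocalCondition (fun _ : Ext K => True) := ⟨∅, fun _ _ _ _ => trivial⟩
    obtain ⟨C, hC⟩ := Pool.Agent.H467.PU.Asmw.allU (k := k) (K := K) hK
    obtain ⟨⟨c, hc, g1⟩, -⟩ := law hK a₀ b hb (fun _ => True) hT 0 (zero_ne hK a₀ b hb)
    have h3' : HasDensity (fun X => {χ ∈ ExtLE K X | True}) (ExtLE K)
        (∑ u ∈ Finset.Icc (-(N : ℤ)) N, δ u) := h3
    refine tendsto_nhds_unique h3' (tendsto_const_nhds.congr' ?_)
    filter_upwards [g1, eventually_gt_atTop 0] with X g2 g3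
    have g4 : ((Family a₀ b (fun _ => True) 0 X).ncard : ℝ) ≤ ((ExtLE K X).ncard : ℝ) := by
      have g5 := Set.ncard_le_ncard (s := Family a₀ b (fun _ => True) 0 X) (t := ExtLE K X)
        (fun χ h => h.1) (hC X).1
      exact_mod_cast g5
    have g5 : (0 : ℝ) < X := by exact_mod_cast g3
    have g6 : 0 < ((ExtLE K X).ncard : ℝ) := lt_of_lt_of_le (mul_pos hc g5) (g2.trans g4)
    have g7 : {χ ∈ ExtLE K X | True} = ExtLE K X := by
      ext χ
      exact and_iff_left trivial
    rw [g7, div_self g6.ne']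
  · refine (h2 u).congr fun X => ?_
    rw [← family_eq]
    rfl

/-- The distribution for all twists. -/
theorem all_dist {k K : Type} [Field k] [Finite k] [CharP k 2] [Field K] [CharP K 2]
    [Algebra k K] (hK : IsFF k K) (a₀ b : K) (hb : b ≠ 0) (δ : ℤ → ℝ) (T : Finset ℤ)
    (h0 : ∀ u, 0 ≤ δ u) (h1 : ∑ u ∈ T, δ u = 1)
    (hne : ∀ u, 0 < δ u → ∃ X, (Family a₀ b (fun _ => True) u X).Nonempty)
    (hd : ∀ u, HasDensity (Family a₀ b (fun _ => True) u) (ExtLE K) (δ u)) (n : ℕ) (c : ℝ)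
    (hc : c < ∑ u ∈ T, δ u * probLE u n) :
    AtLeastShare (fun X => {χ ∈ ExtLE K X | ∀ a : K, ext a = χ →
      SelLE (curve (a₀ + a) (b ^ 2)) n}) (ExtLE K) c := by
  obtain ⟨C, hC⟩ := Pool.Agent.H467.PU.Asmw.allU (k := k) (K := K) hK
  obtain ⟨ε, hε⟩ : ∃ ε : ℝ, ε = (∑ u ∈ T, δ u * probLE u n - c) / 2 := ⟨_, rfl⟩
  have hε0 : 0 < ε := by rw [hε]; linarith
  obtain ⟨T', hT'⟩ : ∃ T' : Finset ℤ, T' = T.filter (fun u => 0 < δ u) := ⟨_, rfl⟩
  have hsum : ∀ f : ℤ → ℝ, ∑ u ∈ T', δ u * f u = ∑ u ∈ T, δ u * f u := by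
    intro f
    rw [hT']
    refine Finset.sum_filter_of_ne fun u _ h => ?_
    exact lt_of_le_of_ne (h0 u) (fun h2 => h (by rw [← h2, zero_mul]))
  have hlim : Tendsto (fun X : ℕ => ∑ u ∈ T', (probLE u n - ε) *
      (((Family a₀ b (fun _ => True) u X).ncard : ℝ) / ((ExtLE K X).ncard : ℝ))) atTop
      (nhds (∑ u ∈ T', (probLE u n - ε) * δ u)) :=
    tendsto_finsetSum _ fun u _ => Tendsto.const_mul _ (hd u)
  have hval : ∑ u ∈ T', (probLE u n - ε) * δ u = (∑ u ∈ T, δ u * probLE u n) - ε := by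
    calc ∑ u ∈ T', (probLE u n - ε) * δ u = ∑ u ∈ T', δ u * (probLE u n - ε) :=
          Finset.sum_congr rfl fun u _ => mul_comm _ _
      _ = ∑ u ∈ T, δ u * (probLE u n - ε) := hsum _
      _ = (∑ u ∈ T, δ u * probLE u n) - ε := by
          simp only [mul_sub, Finset.sum_sub_distrib, ← Finset.sum_mul, h1, one_mul]
  have hlt : c < ∑ u ∈ T', (probLE u n - ε) * δ u := by
    rw [hval]
    linarith
  have hev : ∀ᶠ X : ℕ in atTop, ∀ u ∈ T', (probLE u n - ε) *
      ((Family a₀ b (fun _ => True) u X).ncard : ℝ) ≤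
        ({χ ∈ Family a₀ b (fun _ => True) u X | ∀ a : K, ext a = χ →
          SelLE (curve (a₀ + a) (b ^ 2)) n}.ncard : ℝ) := by
    rw [Filter.eventually_all_finset]
    intro u hu
    rw [hT'] at hu
    exact dist hK a₀ b hb (fun _ => True) ⟨∅, fun _ _ _ _ => trivial⟩ u
      (hne u (Finset.mem_filter.1 hu).2) n _ (by linarith)
  filter_upwards [hlim.eventually (lt_mem_nhds hlt), hev] with X h2 h3
  have h4 : (0 : ℝ) ≤ ((ExtLE K X).ncard : ℝ) := Nat.cast_nonneg _
  rcases h4.eq_or_lt with h5 | h5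
  · rw [← h5, mul_zero]
    exact Nat.cast_nonneg _
  · have h6 : ∑ u ∈ T', (probLE u n - ε) *
        (((Family a₀ b (fun _ => True) u X).ncard : ℝ) / ((ExtLE K X).ncard : ℝ)) =
        (∑ u ∈ T', (probLE u n - ε) * ((Family a₀ b (fun _ => True) u X).ncard : ℝ)) /
          ((ExtLE K X).ncard : ℝ) := by
      rw [Finset.sum_div]
      exact Finset.sum_congr rfl fun u _ => by rw [mul_div_assoc]
    rw [h6, lt_div_iff₀ h5] at h2
    refine h2.le.trans ((Finset.sum_le_sum h3).trans ?_)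
    have h7 := sum_ncard_le T' {χ ∈ ExtLE K X | ∀ a : K, ext a = χ →
      SelLE (curve (a₀ + a) (b ^ 2)) n} ((hC X).1.subset fun χ h => h.1)
      (fun u => {χ ∈ Family a₀ b (fun _ => True) u X | ∀ a : K, ext a = χ →
        SelLE (curve (a₀ + a) (b ^ 2)) n}) (fun u _ χ h => ⟨h.1.1, h.2⟩)
      (fun u _ u' _ huu => by
        rw [Set.disjoint_left]
        intro χ h8 h9
        obtain ⟨a, ha⟩ := Asm.mkq_surj χ
        exact huu ((h8.1.2.2 a ha).symm.trans (h9.1.2.2 a ha)))
    exact_mod_cast h7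

/-- The proportion of the twists for which the conjecture holds among all twists. -/
theorem zero_share {k K : Type} [Field k] [Finite k] [CharP k 2] [Field K] [CharP K 2]
    [Algebra k K] (hK : IsFF k K) (a₀ b : K) (hb : b ≠ 0) (δ₀ : ℝ) (hδ : 0 < δ₀)
    (hd : HasDensity (Family a₀ b (fun _ => True) 0) (ExtLE K) δ₀) (c : ℝ)
    (hc : c < δ₀ * prob 0 0) : AtLeastShare (fun X => {χ ∈ ExtLE K X | ∀ a : K, ext a = χ →
      ConjectureHolds (curve (a₀ + a) b)}) (ExtLE K) c := by
  obtain ⟨C, hC⟩ := Pool.Agent.H467.PU.Asmw.allU (k := k) (K := K) hK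
  have hp0 : (0 : ℝ) < prob 0 0 := by
    have := Pool.Agent.H467.PG.Pnr.pnr.2.1
    unfold Pool.Agent.H467.PG.alp at this
    have h2 : (288 / 1000 : ℝ) < prob 0 0 := by
      unfold prob
      simpa using this
    exact lt_trans (by norm_num) h2
  have hT : LocalCondition (fun _ : Ext K => True) := ⟨∅, fun _ _ _ _ => trivial⟩
  obtain ⟨c', hc'⟩ : ∃ c', c' = max c 0 := ⟨_, rfl⟩
  have h1 : c' < δ₀ * prob 0 0 := by
    rw [hc']
    exact max_lt hc (mul_pos hδ hp0)
  have h2 : 0 ≤ c' := by rw [hc']; exact le_max_right _ _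
  obtain ⟨c₁, h3, h4⟩ := exists_between (show c' / δ₀ < prob 0 0 by
    rw [div_lt_iff₀ hδ, mul_comm]
    exact h1)
  have h5 : 0 < c₁ := lt_of_le_of_lt (div_nonneg h2 hδ.le) h3
  have h6 : c' / c₁ < δ₀ := by
    rw [div_lt_iff₀ h5]
    rw [div_lt_iff₀ hδ] at h3
    linarith
  filter_upwards [share hK a₀ b hb (fun _ => True) hT (zero_ne hK a₀ b hb) c₁ h4,
    hd.eventually (lt_mem_nhds h6)] with X h7 h8
  have h9 : ({χ ∈ Family a₀ b (fun _ => True) 0 X | ∀ a : K, ext a = χ →
        ConjectureHolds (curve (a₀ + a) b)}.ncard : ℝ) ≤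
      ({χ ∈ ExtLE K X | ∀ a : K, ext a = χ → ConjectureHolds (curve (a₀ + a) b)}.ncard : ℝ) := by
    have h10 := Set.ncard_le_ncard (s := {χ ∈ Family a₀ b (fun _ => True) 0 X | ∀ a : K,
        ext a = χ → ConjectureHolds (curve (a₀ + a) b)})
      (t := {χ ∈ ExtLE K X | ∀ a : K, ext a = χ → ConjectureHolds (curve (a₀ + a) b)})
      (fun χ h => ⟨h.1.1, h.2⟩) ((hC X).1.subset fun χ h => h.1)
    exact_mod_cast h10
  refine le_trans ?_ (h7.trans h9)
  have h10 : (0 : ℝ) ≤ ((ExtLE K X).ncard : ℝ) := Nat.cast_nonneg _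
  have h11 : c * ((ExtLE K X).ncard : ℝ) ≤ c' * ((ExtLE K X).ncard : ℝ) :=
    mul_le_mul_of_nonneg_right (by rw [hc']; exact le_max_left _ _) h10
  refine h11.trans ?_
  rcases h10.eq_or_lt with h12 | h12
  · rw [← h12, mul_zero]
    exact mul_nonneg h5.le (Nat.cast_nonneg _)
  · rw [lt_div_iff₀ h12, div_mul_eq_mul_div, div_lt_iff₀ h5] at h8
    linarith

end aux

/-- **Theorem.** Let `K` be a global function field of characteristic two, `k` a finite field contained
in `K`, and `a₀, b ∈ K`, `b ≠ 0`. -/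
theorem result (k K : Type) [Field k] [Finite k] [CharP k 2] [Field K] [CharP K 2] [Algebra k K]
    (hK : IsFF k K) (a₀ b : K) (hb : b ≠ 0) :
    -- (1) a bound for the flat Selmer group `Sel (E, 2)` of one curve
    (∀ (a : K) (r s : ℕ), (s : ℤ) = r + excess a b →
      (Selmer (a ^ 2) (b ^ 2)).ncard = 2 ^ (s + 1) → SelLE (curve a (b ^ 2)) (s + r)) ∧
    -- (2) the flat Selmer groups of all twists
    (∃ C : ℝ, ∀ n : ℕ, AtLeastShare (fun X => {χ ∈ ExtLE K X | ∀ a : K, ext a = χ →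
      SelLE (curve (a₀ + a) (b ^ 2)) n}) (ExtLE K) (1 - C * (1 / 2) ^ (n ^ 2 / 4))) ∧
    -- (3) the flat Selmer groups of the twists in one family
    (∀ P : Ext K → Prop, LocalCondition P → ∀ u : ℤ, (∃ X, (Family a₀ b P u X).Nonempty) →
      ∀ (n : ℕ) (c : ℝ), c < probLE u n → AtLeastShare (fun X => {χ ∈ Family a₀ b P u X |
        ∀ a : K, ext a = χ → SelLE (curve (a₀ + a) (b ^ 2)) n}) (Family a₀ b P u) c) ∧
    (∀ u : ℤ, Tendsto (fun n => probLE u n) atTop (nhds 1)) ∧
    -- (4) the Selmer group conjecture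
    (288 / 1000 : ℝ) < prob 0 0 ∧
    (∀ P : Ext K → Prop, LocalCondition P → (∃ X, (Family a₀ b P 0 X).Nonempty) →
      ∀ c : ℝ, c < prob 0 0 → AtLeastShare (fun X => {χ ∈ Family a₀ b P 0 X | ∀ a : K,
        ext a = χ → ConjectureHolds (curve (a₀ + a) b)}) (Family a₀ b P 0) c) ∧
    -- (5) the densities of the families, and bounds for the proportions among all twists
    (∃ δ : ℤ → ℝ, (∀ u, 0 ≤ δ u) ∧ 0 < δ 0 ∧ ∑ᶠ u, δ u = 1 ∧
      (∀ u, HasDensity (Family a₀ b (fun _ => True) u) (ExtLE K) (δ u)) ∧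
      (∀ (n : ℕ) (c : ℝ), c < ∑ᶠ u, δ u * probLE u n → AtLeastShare (fun X => {χ ∈ ExtLE K X |
        ∀ a : K, ext a = χ → SelLE (curve (a₀ + a) (b ^ 2)) n}) (ExtLE K) c) ∧
      Tendsto (fun n => ∑ᶠ u, δ u * probLE u n) atTop (nhds 1) ∧
      ∀ c : ℝ, c < δ 0 * prob 0 0 → AtLeastShare (fun X => {χ ∈ ExtLE K X | ∀ a : K,
        ext a = χ → ConjectureHolds (curve (a₀ + a) b)}) (ExtLE K) c) := by
  refine ⟨fun a r s h1 h2 => flat_one hK a b hb r s h1 h2, tail hK a₀ b hb,
    fun P hP u hne n c hc => dist hK a₀ b hb P hP u hne n c hc, ?_, ?_,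
    fun P hP hne c hc => share hK a₀ b hb P hP hne c hc, ?_⟩
  · exact tendsto_probLE
  · have := Pool.Agent.H467.PG.Pnr.pnr.2.1
    unfold Pool.Agent.H467.PG.alp at this
    unfold prob
    simpa using this
  · obtain ⟨δ, T, h0, h1, h2, h3, h4, h5⟩ := dens0 hK a₀ b hb
    have e1 : ∀ f : ℤ → ℝ, ∑ᶠ u, δ u * f u = ∑ u ∈ T, δ u * f u := fun f => by
      refine finsum_eq_sum_of_support_subset _ fun u hu => ?_
      by_contra h6
      apply hu
      show δ u * f u = 0
      rw [h2 u h6, zero_mul]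
    refine ⟨δ, h0, h1, ?_, h5, fun n c hc => all_dist hK a₀ b hb δ T h0 h3 h4 h5 n c ?_, ?_,
      fun c hc => zero_share hK a₀ b hb (δ 0) h1 (h5 0) c hc⟩
    · have h6 := e1 (fun _ => 1)
      simp only [mul_one] at h6
      rw [h6, h3]
    · rwa [e1] at hc
    · have h6 : Tendsto (fun n => ∑ u ∈ T, δ u * probLE u n) atTop (nhds (∑ u ∈ T, δ u * 1)) :=
        tendsto_finsetSum _ fun u _ => Tendsto.const_mul _ (tendsto_probLE u)
      simp only [mul_one] at h6
      rw [h3] at h6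
      exact h6.congr fun n => (e1 _).symm

end Pool.Agent.Results.MP_1bdb59_nt.FlatSelmerGroupsOfAllTwists
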