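import Pool.Agent.H467.HJ.Sim
import Pool.Agent.H467.HJ.Trn
import Pool.Agent.H859.TWC.Fin
import Pool.Graph.R_pool_sql_team_seeded_63374d34.N874.JM.Gnu
import Pool.Graph.R_pool_sql_team_seeded_63374d34.N874.Jac.Def

/-!
# The conjecture of Birch and Swinnerton-Dyer for many simultaneous quadratic twists of several
# hyperelliptic Jacobians, uniformly over infinitely many function fields

Let `k` be a finite field of odd characteristic with `q` elements and `K = k(t)`. Let
`C_i : y ^ 2 = f_i(x)`, `i = 1, ..., m`, be curves of any genera `g_i ≥ 1`, where `f_i` is monic of degree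
`2 g_i + 1` over `k[t]`. The hypotheses are

* the discriminants of the `f_i` are squarefree, and the reduction of `f_i` at the place at infinity is
  irreducible;
* the Galois group of `f_1 ... f_m` over `K` is as large as possible, the product of the symmetric groups
  of degrees `2 g_i + 1`.

For a finite set `S` of primes of `k[t]` and one of the `f_i` let `E(f_i, S)` be the class of all the
fields between `K` and a finite Galois extension `M` of `K` of 2-power degree in which all `Q ∈ S` split
completely and in which only such primes of `k[t]` are ramified modulo which `f_i` is irreducible (there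
is no condition at infinity). For a squarefree `D` in `k[t]` let `J_{i, D}` be the Jacobian of the
quadratic twist `D y ^ 2 = f_i(x)`, that is of `y ^ 2 = D ^ (2 g_i + 1) f_i(x / D)`.

Theorem. There are a finite set `S` of primes and a constant `c > 0` such that the numbers `N_d` of all
the monic squarefree `D` of degree `d` with

* for all `i` and all `E ∈ E(f_i, S)` multiplication by two is bijective on `J_{i, D}(E)`, and all classes
  of 2-power order in the Tate-Shafarevich group of `J_{i, D}` over `E` are zero, even without conditions
  at the places over infinity,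

satisfy `∑_{d ≤ n} N_d / q ^ d ≥ c n ^ δ` for all large `n`, and `N_d ≥ c q ^ d d ^ (δ - 1)` for infinitely
many `d`, with `δ = ∏ 1 / (2 g_i + 1)`. More precisely there is a product `D₀` of different elements of
`S` such that all `D = D₀ B` have this property for which all the `f_i` are irreducible modulo all the
primes dividing `B`.

The groups `J_{i, D}(E)` are finite of odd order (Lang, Neron), and by the theorem of Artin, Tate, Milne,
Schneider, Kato and Trihan (it is enough that one primary part of the Tate-Shafarevich group is finite)
the conjecture of Birch and Swinnerton-Dyer (and the Selmer group conjecture for all primes `l`) holds for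
all the `J_{i, D}` over all these fields `E`; the order of vanishing of the `L`-functions is zero. All the `J_{i, D}` with `i = 1, ..., m` have the same `D`, and for
the fields which are ramified only at primes modulo which all the `f_i` are irreducible the twists
`J_{1, D}, ..., J_{m, D}` are good together. The class contains infinitely many fields (helper859 shows
this for one `f`).

For one curve (`m = 1`) this seems to be new, too, also over `E = K`: earlier results of this kind for
given curves and varying `D` are for elliptic curves in characteristic at least five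
(`MP_48b749_nt.SimultaneousTwists`, `MP_ae0bd0_nt.TwistsOverTwoExtensions`; they need a prime of
multiplicative reduction of each curve which is a prime of good reduction of the others instead of the two
hypotheses), and results for Jacobians of higher genus are about families in which the curve varies
(`MP_60d5ce_nt.EveryResidueClass`, `MP_ff7320_nt.UniformOverTwoExtensions`), with unspecified twists. For
`m = 2` and elliptic curves, moments of `L`-functions give simultaneous nonvanishing for
`q ^ d / d ^ (6 + ε)` twists (Bui, Florea, Keating, Roditty-Gershon).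

Proof. For each `i` there are finitely many classes modulo squares of elements of `L_i = K(θ_i)`, `θ_i` a
root of `f_i`, of square norm and with even valuations. By Chebotarev's density theorem for the
compositum of the splitting fields and a square root of such an element there are primes `Q` modulo which
`f_i` is a linear polynomial times an irreducible polynomial of degree `2 g_i`, the other `f_j` are
irreducible, and the class is not a square at the prime of degree one over `Q`. Let `S_i` be a finite set
of such primes which detects all the classes. After a translation of `x` the roots of `f_i` modulo the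
primes in `S_i` are all zero. A reciprocity law for elements of `L_i` which are not even at the primes of
degree `2 g_i` over `S_i` (two Lagrangian subspaces, given by self-dual lattices, of a quadratic space over
`k`; here the reduction at infinity is used) and linear algebra over the field with two elements give a
subset `J_i` of `S_i` such that the Selmer group of the twist by the product of the primes in `J_i` is
zero. This Selmer group does not change over the fields `M` in the class and if `D` is multiplied by primes
modulo which `f_i` is irreducible. Since the `f_j` with `j ≠ i` are irreducible modulo the primes in `J_i`,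
one may take for `D` the product of the primes in all the `J_i` and of arbitrary primes modulo which all
the `f_i` are irreducible. Their density is `δ`: the transitive elements of the symmetric group of degree
`n` are the `n`-cycles. The products of primes in a set of density `δ` are counted by a Tauberian
argument.

Helper files: `Pool/Agent/H467/HJ/` (helper467; the parts `Grph`, `Genh`, `Stqh`, `Trn` by helper588,
helper297, helper215, helper199), `Pool/Agent/H467/MR/` (counting and Chebotarev's theorem, with parts by
helper548, helper627, helper734, helper580, helper168), and the files of helper859 in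
`Pool/Agent/H859/SC/`, `Pool/Agent/H859/TWC/` after the projects PJ (helper352), JM, TW (helper874) of the
run 63374d34 with parts by many helpers of that run, who are named in `UniformOverTwoExtensions`.
-/

set_option autoImplicit false
set_option linter.all false

namespace Pool.Agent.Results.MP_1bdb59_nt.SimultaneousJacobianTwists

open Polynomial Filter IsDedekindDomain
open Pool.Agent.N874.Jac (UniquelyTwoDivisible ShaTwoTrivial)
open scoped Classical

/-- The curve `y ^ 2 = f(x)` of genus `g` over `K = k(t)`, `f` monic of degree `2 g + 1` over `k[t]` with a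
squarefree discriminant and irreducible reduction `r` at infinity: for some `M` the polynomial
`t ^ (- M (2 g + 1)) f(t ^ M x)` has coefficients in `k[1 / t]`, and its reduction modulo `1 / t` is `r`. -/
structure IsCurve {k : Type} [Field k] (g : ℕ) (f : k[X][X]) : Prop where
  monic : f.Monic
  degree : f.natDegree = 2 * g + 1
  infinity : ∃ (M : ℕ) (r : k[X]), r.Monic ∧ Irreducible r ∧ r.natDegree = 2 * g + 1 ∧
    ∀ j ≤ 2 * g, (f.coeff j).natDegree ≤ M * (2 * g + 1 - j) ∧
      (f.coeff j).coeff (M * (2 * g + 1 - j)) = r.coeff j
  discriminant : Squarefree f.discr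

/-- The Galois group of the product of the `f i` over `K` is as large as possible: its order is the
product of the numbers `(2 g i + 1)!`. -/
def FullGaloisGroup {k : Type} [Field k] (K : Type) [Field K] [Algebra k[X] K] {m : ℕ}
    (g : Fin m → ℕ) (f : Fin m → k[X][X]) : Prop :=
  Nat.card (∏ i, (f i).map (algebraMap k[X] K)).Gal = ∏ i, (2 * g i + 1).factorial

/-- The quadratic twist of `y ^ 2 = f(x)` by `D`: the polynomial `D ^ (2 g + 1) f(x / D)`. -/
noncomputable def twist {k : Type} [Field k] (D : k[X]) (f : k[X][X]) : k[X][X] := f.scaleRoots D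

/-- Multiplication by two is bijective on `J(E)`, `J` the Jacobian of `y ^ 2 = F(x)`, and every class of
2-power order in `H ^ 1 (E, J)` which is zero over the completions of `E` at all maximal ideals of `R` is
zero. -/
def NoTwoPart (R : Type) {E : Type} [Field E] [CommRing R] [IsDedekindDomain R] [Algebra R E]
    [IsFractionRing R E] (F : E[X]) : Prop :=
  UniquelyTwoDivisible F ∧ ShaTwoTrivial F R

/-- `f` is irreducible modulo `P`. -/
def IrreducibleMod {k : Type} [Field k] (f : k[X][X]) (P : k[X]) : Prop :=
  Irreducible (f.map (Ideal.Quotient.mk (Ideal.span {P})))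

/-- `P` is unramified in the extension `R` of `k[t]`. -/
def Unramified {k : Type} [Field k] (R : Type) [CommRing R] [Algebra k[X] R] (P : k[X]) : Prop :=
  ∀ w : HeightOneSpectrum R, algebraMap k[X] R P ∈ w.asIdeal → algebraMap k[X] R P ∉ w.asIdeal ^ 2

/-- `Q` splits completely in the extension `R` of `k[t]`: it is unramified, and every element of `R` is
congruent to a polynomial modulo every prime over `Q`. -/
def SplitsCompletely {k : Type} [Field k] (R : Type) [CommRing R] [Algebra k[X] R] (Q : k[X]) :
    Prop :=
  Unramified R Q ∧ ∀ w : HeightOneSpectrum R, algebraMap k[X] R Q ∈ w.asIdeal →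
    ∀ y : R, ∃ c : k[X], y - algebraMap k[X] R c ∈ w.asIdeal

/-- The Jacobian of `y ^ 2 = F(x)` has no 2-part over all the fields `E` between `K = k(t)` and a finite
Galois extension `M` of `K` of 2-power degree in which the primes `Q ∈ S` split completely and in which
only primes are ramified modulo which `f` is irreducible. Here `R` is the integral closure of `k[t]` in
`M`, and `R'` that in `E`. -/
def NoTwoPartUniformly {k : Type} [Field k] (K : Type) [Field K] [Algebra k[X] K]
    (S : Finset k[X]) (f F : k[X][X]) : Prop :=
  ∀ (M : Type) [Field M] [Algebra K M] [Algebra k[X] M] [IsScalarTower k[X] K M]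
    [FiniteDimensional K M] [IsGalois K M] (R : Type) [CommRing R] [IsDedekindDomain R]
    [Algebra R M] [IsFractionRing R M] [Algebra k[X] R] [IsScalarTower k[X] R M]
    [IsIntegralClosure R k[X] M] (n : ℕ), Module.finrank K M = 2 ^ n →
    (∀ Q ∈ S, SplitsCompletely R Q) →
    (∀ P : k[X], Irreducible P → Unramified R P ∨ IrreducibleMod f P) →
    ∀ (E : IntermediateField K M) (R' : Type) [CommRing R'] [IsDedekindDomain R'] [Algebra R' E]
      [IsFractionRing R' E] [Algebra k[X] R'] [IsScalarTower k[X] R' E]
      [IsIntegralClosure R' k[X] E], NoTwoPart R' (F.map (algebraMap k[X] E))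

/-- The monic squarefree `D` of degree `d` such that the Jacobians of the twists by `D` of all the curves
`y ^ 2 = f i (x)` have no 2-part over all the fields which belong to `S` and `f i`. -/
def Twists {k : Type} [Field k] (K : Type) [Field K] [Algebra k[X] K] {m : ℕ}
    (f : Fin m → k[X][X]) (S : Finset k[X]) (d : ℕ) : Set k[X] :=
  {D | D.Monic ∧ Squarefree D ∧ D.natDegree = d ∧ ∀ i, NoTwoPartUniformly K S (f i) (twist D (f i))}

theorem noTwoPart_of {k : Type} [Field k] [Finite k] (hp : (2 : k) ≠ 0) (K : Type) [Field K]
    [Algebra k[X] K] [IsFractionRing k[X] K] {g M : ℕ} {r : k[X]} {f : k[X][X]}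
    (hf : Pool.Agent.H467.HJ.Crv g M r f) {S : Finset k[X]} {D : k[X]} (hD0 : D ≠ 0)
    (h : Pool.Agent.H859.N874.TW.Uni K S f (f.scaleRoots D)) :
    NoTwoPartUniformly K S f (twist D f) := by
  intro M _ _ _ _ _ _ R _ _ _ _ _ _ _ n hn hQ hP E R' _ _ _ _ _ _ _
  have hsel : Pool.Agent.N874.JM.SelF R ((f.scaleRoots D).map (algebraMap k[X] M)) := by
    refine h M R n hn (fun Q hQS w hw => ?_) (fun P hPm hPi hram => ?_)
    · refine ⟨(Pool.Agent.N874.TW.val_iff Q w hw).2 ((hQ Q hQS).1 w hw), fun y => ?_⟩
      obtain ⟨y, rfl⟩ := Ideal.Quotient.mk_surjective y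
      obtain ⟨b, hb⟩ := (hQ Q hQS).2 w hw y
      exact ⟨b, (Ideal.Quotient.eq.2 hb).symm⟩
    · rcases hP P hPi with h | h
      · obtain ⟨w, hw, hne⟩ := hram
        exact absurd ((Pool.Agent.N874.TW.val_iff P w hw).2 (h w hw)) hne
      · exact h
  have hI := Pool.Agent.H467.HJ.Wt.irk g k K f _ r D hf hD0
  have hmon : (f.scaleRoots D).Monic := (monic_scaleRoots_iff D).2 hf.mon
  have hdeg : (f.scaleRoots D).natDegree = 2 * g + 1 := by
    rw [natDegree_scaleRoots, hf.deg]
  haveI : IsScalarTower k[X] K E := IntermediateField.isScalarTower _
  have hfE : Module.finrank K E ∣ 2 ^ n := by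
    rw [← hn, ← Module.finrank_mul_finrank K E M]
    exact dvd_mul_right _ _
  obtain ⟨m', -, hm'⟩ := (Nat.dvd_prime_pow Nat.prime_two).1 hfE
  obtain ⟨h4, h5⟩ := Pool.Agent.N874.JM.genuine K E R' hm' hp hmon
    (by rw [hdeg]; exact odd_two_mul_add_one g) hI.2.2.2 hI.2.1
    (Pool.Agent.H859.TWC.uni_down hp K M R hn hmon hdeg hI.2.2.2 hI.2.1 hsel E R')
  exact ⟨Pool.Agent.N874.Jac.div_of _ h4, Pool.Agent.N874.Jac.sha_of _ R' h5⟩

/-- Let `k` be a finite field of odd characteristic with `q` elements, `K = k(t)`, and let `f_1, ..., f_m`
be monic polynomials of degrees `2 g_i + 1`, `g_i ≥ 1`, over `k[t]` with squarefree discriminants and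
irreducible reductions at infinity such that the Galois group of their product over `K` is the product
of the full symmetric groups. Then there are a finite set `S` of primes and a product `D₀` of different
elements of `S` with the following property. Let `D = D₀ B`, `B ≠ 0`, where all the `f_i` are irreducible
modulo all the primes dividing `B`. Then the Jacobians of all the curves `D y ^ 2 = f_i(x)` have no
2-part over ALL the fields between `K` and a finite Galois extension of `K` of 2-power degree in which all
`Q ∈ S` split completely and in which only primes are ramified modulo which `f_i` is irreducible. The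
numbers `N_d` of all the monic squarefree `D` of degree `d` with this property of the Jacobians satisfy
`∑_{d ≤ n} N_d / q ^ d ≥ c n ^ δ` for all large `n` and `N_d ≥ c q ^ d d ^ (δ - 1)` for infinitely many
`d`, where `c > 0` and `δ = ∏ 1 / (2 g_i + 1)`. -/
theorem result (k : Type) [Field k] [Finite k] (hp : (2 : k) ≠ 0) (K : Type) [Field K]
    [Algebra k[X] K] [IsFractionRing k[X] K] (m : ℕ) (g : Fin m → ℕ) (hg : ∀ i, 1 ≤ g i)
    (f : Fin m → k[X][X]) (hf : ∀ i, IsCurve (g i) (f i)) (hG : FullGaloisGroup K g f) :
    ∃ S : Finset k[X], (∀ Q ∈ S, Q.Monic ∧ Irreducible Q) ∧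
      (∃ U ⊆ S, ∀ B : k[X], B ≠ 0 →
        (∀ P : k[X], Irreducible P → P ∣ B → ∀ i, IrreducibleMod (f i) P) →
        ∀ i, NoTwoPartUniformly K S (f i) (twist ((∏ Q ∈ U, Q) * B) (f i))) ∧
      ∃ c : ℝ, 0 < c ∧
      (∀ᶠ n : ℕ in atTop, c * (n : ℝ) ^ (∏ i, (1 / (2 * (g i : ℝ) + 1))) ≤
        ∑ d ∈ Finset.range (n + 1), ((Twists K f S d).ncard : ℝ) / (Nat.card k : ℝ) ^ d) ∧
      (∃ᶠ d : ℕ in atTop, c * (Nat.card k : ℝ) ^ d *
          (d : ℝ) ^ (∏ i, (1 / (2 * (g i : ℝ) + 1)) - 1) ≤ ((Twists K f S d).ncard : ℝ)) := by
  have hcrv : ∀ i, ∃ (M : ℕ) (r : k[X]), Pool.Agent.H467.HJ.Crv (g i) M r (f i) := by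
    intro i
    obtain ⟨M, r, h1, h2, h3, h4⟩ := (hf i).infinity
    refine ⟨M, r, (hf i).monic, (hf i).degree, fun j hj => (h4 j hj).1, fun j hj => (h4 j hj).2,
      h1, h2, h3, fun x hx => (hf i).discriminant x ?_⟩
    rw [← pow_two] at hx ⊢
    exact (Pool.Agent.H859.TWC.dsc_discr (hf i).monic (hf i).degree x).1 hx
  choose M r hcrv using hcrv
  obtain ⟨S, hS, ⟨U, hUS, hU⟩, c, hc, n₀, hn₀⟩ := Pool.Agent.H467.HJ.simH
    Pool.Agent.H467.HJ.Trn.trn Pool.Agent.H467.HJ.Trn.selt K hp hg hcrv hG
  refine ⟨S, hS, ⟨U, hUS, fun B hB0 hB i => ?_⟩, ?_⟩
  · refine noTwoPart_of hp K (hcrv i) (mul_ne_zero (Finset.prod_ne_zero_iff.2 fun Q hQ => ?_) hB0)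
      (hU B hB0 (fun P _ hPi hPd => hB P hPi hPd) i)
    exact (hS Q (hUS hQ)).2.ne_zero
  have hδ0 : (0 : ℝ) < ∏ i, (1 / (2 * (g i : ℝ) + 1)) := Finset.prod_pos fun i _ => by positivity
  have hδ1 : (∏ i, (1 / (2 * (g i : ℝ) + 1))) ≤ (1 : ℝ) := by
    refine Finset.prod_le_one (fun i _ => by positivity) fun i _ => ?_
    rw [div_le_one (by positivity)]
    have : (0 : ℝ) ≤ g i := Nat.cast_nonneg _
    linarith
  refine Pool.Agent.H467.UM.Cnt.fin_sum
    {D : k[X] | D.Monic ∧ Squarefree D ∧
      ∀ i, Pool.Agent.H859.N874.TW.Uni K S (f i) ((f i).scaleRoots D)}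
    (fun d => Twists K f S d) (fun d => ?_) ?_ hδ0 hδ1 hc (n₀ := n₀) ?_
  · exact (Pool.Agent.H467.UM.Cnt.fin_deg d).subset fun D hD => le_of_eq hD.2.2.1
  · rintro D ⟨hDm, hDs, hD⟩
    exact ⟨hDm, hDs, rfl, fun i => noTwoPart_of hp K (hcrv i) hDm.ne_zero (hD i)⟩
  · intro n hn
    have h1 := (hn₀ n hn).2
    have hset : {D : k[X] | D.Monic ∧ D.natDegree ≤ n ∧ (Squarefree D ∧
        ∀ i, Pool.Agent.H859.N874.TW.Uni K S (f i) ((f i).scaleRoots D))} =
        {D : k[X] | D ∈ {D : k[X] | D.Monic ∧ Squarefree D ∧
          ∀ i, Pool.Agent.H859.N874.TW.Uni K S (f i) ((f i).scaleRoots D)} ∧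
          D.natDegree ≤ n} := by
      ext D
      simp only [Set.mem_setOf_eq]
      tauto
    rw [hset] at h1
    exact h1

end Pool.Agent.Results.MP_1bdb59_nt.SimultaneousJacobianTwists
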